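import Pool.Agent.Y642.ND.Loc
import Pool.Agent.Y642.ND.Stm3

/-!
# Counting collisions in blocks
-/

set_option autoImplicit false

open Finset

namespace Pool.Agent.Q188.RV

open Pool.Agent.Y642.ND (gain S_CNT S_CELL S_RDET)

/-- convexity -/
lemma conv {n : ℕ} (hn : 1 ≤ n) {β : Type} [Fintype β] [Nonempty β] (r : β → ℝ)
    (hr : ∀ b, 0 ≤ r b) :
    (Fintype.card β : ℝ) * ((∑ b, r b) / Fintype.card β) ^ (1 + 1 / (n : ℝ)) ≤
      ∑ b, r b ^ (1 + 1 / (n : ℝ)) := by
  have hn0 : (0 : ℝ) < n := by exact_mod_cast hn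
  have hm0 : (0 : ℝ) < Fintype.card β := by exact_mod_cast Fintype.card_pos
  set a : ℝ := 1 + 1 / (n : ℝ) with ha
  have ha1 : 1 ≤ a := by
    rw [ha]
    have : 0 ≤ 1 / (n : ℝ) := by positivity
    linarith
  have h4 := Real.rpow_sum_le_const_mul_sum_rpow_of_nonneg
    (Finset.univ : Finset β) (f := r) ha1 (fun c _ => hr c)
  rw [Finset.card_univ] at h4
  have hs : 0 ≤ ∑ b, r b := Finset.sum_nonneg fun b _ => hr b
  rw [Real.div_rpow hs hm0.le]
  have h5 : (Fintype.card β : ℝ) ^ a = (Fintype.card β : ℝ) * (Fintype.card β : ℝ) ^ (a - 1) := by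
    rw [← Real.rpow_one_add' hm0.le (by linarith)]
    congr 1
    ring
  have h6 : 0 < (Fintype.card β : ℝ) ^ (a - 1) := Real.rpow_pos_of_pos hm0 _
  rw [h5]
  have h7 : (Fintype.card β : ℝ) * ((∑ b, r b) ^ a / ((Fintype.card β : ℝ) *
      (Fintype.card β : ℝ) ^ (a - 1))) = (∑ b, r b) ^ a / (Fintype.card β : ℝ) ^ (a - 1) := by
    field_simp
  rw [h7, div_le_iff₀ h6]
  linarith

/-- the exponent gained by a local field, in terms of the sizes of the blocks -/
lemma exists_E2 (hCNT : S_CNT) {n q : ℕ} (hn : 1 ≤ n) (hq : 1 ≤ q) {J β : Type}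
    [Fintype β] [DecidableEq β] (T : Finset J) (blk : J → β) :
    ∃ E : ℕ, ∑ c, gain n q ((T.filter fun i => blk i = c).card : ℝ) ≤ q * E ∧
      ∀ g : J → Fin n → ℕ, (∀ i ∈ T, ∀ i' ∈ T, blk i = blk i' → g i = g i' → i = i') →
        E ≤ ∑ σ ∈ T, ∑ j, g σ j / q := by
  classical
  have hq0 : (0 : ℝ) < q := by exact_mod_cast hq
  refine ⟨⌈(∑ c, gain n q ((T.filter fun i => blk i = c).card : ℝ)) / q⌉₊, ?_,
    fun g hg => ?_⟩
  · have h1 := Nat.le_ceil ((∑ c, gain n q ((T.filter fun i => blk i = c).card : ℝ)) / q)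
    rw [div_le_iff₀ hq0] at h1
    linarith
  · rw [Nat.ceil_le, div_le_iff₀ hq0]
    have h1 : ∀ c, gain n q ((T.filter fun i => blk i = c).card : ℝ) ≤
        q * ∑ i ∈ T.filter (fun i => blk i = c), ∑ j, ((g i j / q : ℕ) : ℝ) := by
      intro c
      have hinj : Set.InjOn g (T.filter fun i => blk i = c) := by
        intro i hi i' hi' h
        rw [Finset.mem_coe, Finset.mem_filter] at hi hi'
        exact hg i hi.1 i' hi'.1 (hi.2.trans hi'.2.symm) h
      have h2 := hCNT n q hn hq ((T.filter fun i => blk i = c).image g)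
      rw [Finset.card_image_of_injOn hinj, Finset.sum_image hinj] at h2
      exact h2
    have h2 : ∑ c, gain n q ((T.filter fun i => blk i = c).card : ℝ) ≤
        ∑ c, (q : ℝ) * ∑ i ∈ T.filter (fun i => blk i = c), ∑ j, ((g i j / q : ℕ) : ℝ) :=
      Finset.sum_le_sum fun c _ => h1 c
    have h2' : ∑ c, ∑ i ∈ T.filter (fun i => blk i = c), ∑ j, ((g i j / q : ℕ) : ℝ) =
        ∑ i ∈ T, ∑ j, ((g i j / q : ℕ) : ℝ) := by
      convert Finset.sum_fiberwise T blk (fun i => ∑ j, ((g i j / q : ℕ) : ℝ))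
    rw [← Finset.mul_sum, h2'] at h2
    push_cast at h2 ⊢
    linarith

/-- the mean of the contributions is at least the contribution of the mean -/
lemma gain_conv {n q : ℕ} (hn : 1 ≤ n) {J β : Type}
    [Fintype β] [Nonempty β] [DecidableEq β] (T : Finset J) (blk : J → β) :
    (Fintype.card β : ℝ) * gain n q ((T.card : ℝ) / Fintype.card β) ≤
      ∑ c, gain n q ((T.filter fun i => blk i = c).card : ℝ) := by
  classical
  have hm0 : (0 : ℝ) < Fintype.card β := by exact_mod_cast Fintype.card_pos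
  set r : β → ℝ := fun c => ((T.filter fun i => blk i = c).card : ℝ) with hr
  have hr0 : ∀ c, 0 ≤ r c := fun c => Nat.cast_nonneg _
  have hrsum : ∑ c, r c = T.card := by
    have h0 := Finset.card_eq_sum_card_fiberwise (f := blk) (s := T) (t := Finset.univ)
      (fun i _ => Finset.mem_coe.mpr (Finset.mem_univ _))
    show ∑ c, ((T.filter fun i => blk i = c).card : ℝ) = T.card
    rw [← Nat.cast_sum, ← h0]
  have h3 := conv hn r hr0
  rw [hrsum] at h3
  have h4 := mul_le_mul_of_nonneg_left h3 (by positivity : (0 : ℝ) ≤ (n : ℝ) / (n + 1))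
  unfold gain
  have h5 : (Fintype.card β : ℝ) * ((n : ℝ) / (n + 1) *
      ((T.card : ℝ) / Fintype.card β) ^ (1 + 1 / (n : ℝ)) -
      (n * ((q : ℝ) - 1) + 2) * ((T.card : ℝ) / Fintype.card β)) =
      (n : ℝ) / (n + 1) * ((Fintype.card β : ℝ) *
        ((T.card : ℝ) / Fintype.card β) ^ (1 + 1 / (n : ℝ))) -
      (n * ((q : ℝ) - 1) + 2) * T.card := by
    field_simp
  rw [h5, Finset.sum_sub_distrib, ← Finset.mul_sum, ← Finset.mul_sum]
  show _ ≤ _ - (n * ((q : ℝ) - 1) + 2) * ∑ c, r c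
  rw [hrsum]
  linarith

/-- sums of the contributions of the real points of the blocks -/
lemma sum_real {n : ℕ} (hn : 1 ≤ n) {N : ℝ} (hN : 0 < N) {β : Type} [Fintype β] [Nonempty β]
    (r : β → ℝ) (hr : ∀ b, 0 ≤ r b) :
    (Fintype.card β : ℝ) * ((n : ℝ) / (n + 1) *
      ((∑ b, r b) / Fintype.card β) ^ (1 + 1 / (n : ℝ)) / N -
        2 * ((∑ b, r b) / Fintype.card β)) ≤
      ∑ b, ((n : ℝ) / (n + 1) * (r b) ^ (1 + 1 / (n : ℝ)) / N - 2 * r b) := by
  have hm0 : (0 : ℝ) < Fintype.card β := by exact_mod_cast Fintype.card_pos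
  have h3 := conv hn r hr
  rw [Finset.sum_sub_distrib, ← Finset.mul_sum, ← Finset.sum_div, ← Finset.mul_sum]
  have h4 := mul_le_mul_of_nonneg_left h3 (by positivity : (0 : ℝ) ≤ (n : ℝ) / (n + 1))
  have h5 := div_le_div_of_nonneg_right h4 hN.le
  have h6 : (Fintype.card β : ℝ) * ((n : ℝ) / (n + 1) *
      ((∑ b, r b) / Fintype.card β) ^ (1 + 1 / (n : ℝ)) / N -
        2 * ((∑ b, r b) / Fintype.card β)) =
      (n : ℝ) / (n + 1) * ((Fintype.card β : ℝ) *
        ((∑ b, r b) / Fintype.card β) ^ (1 + 1 / (n : ℝ))) / N - 2 * ∑ b, r b := by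
    field_simp
  rw [h6]
  linarith

end Pool.Agent.Q188.RV
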