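import Pool.Agent.Q188.RV.Bas
import Pool.Agent.Q188.RV.Cnt
import Pool.Agent.Y642.ND.Real

/-!
# Real conjugates, one block
-/

set_option autoImplicit false

open Finset Polynomial Module

namespace Pool.Agent.Q188.RV

open Pool.Agent.Y642.ND (gain S_CNT S_CELL S_RDET real_E)

/-- the determinant with real rows; the number of cells does not depend on the matrix -/
lemma arc_real (hCELL : S_CELL) (hRDET : S_RDET) (hCNT : S_CNT) {n : ℕ} (hn : 1 ≤ n) (B : ℕ) :
    ∃ N : ℕ, 1 ≤ N ∧ (N : ℝ) ≤ 16 * Real.log (B + 2) ∧ ∀ (D : ℕ)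
    (y : Fin D → Fin n → ℂ) (l : Fin D → Fin n → ℕ), (∀ k j, l k j ≤ B) →
    ∀ T : Finset (Fin D), (∀ i ∈ T, ∀ j, (((y i j).re : ℝ) : ℂ) = y i j) →
    ∃ E : ℕ, (n : ℝ) / (n + 1) * (T.card : ℝ) ^ (1 + 1 / (n : ℝ)) / N - 2 * T.card ≤ E ∧
      ‖(Matrix.of fun i k : Fin D => ∏ j, y i j ^ l k j).det‖ ≤
        (1 / 2) ^ E * (2 ^ n * 3 ^ n) ^ T.card * Real.sqrt ((D : ℝ) ^ D) *
          ∏ i, ∏ j, (max 1 ‖y i j‖) ^ B := by
  classical
  obtain ⟨N, lab, p, c, hN, hc⟩ := hCELL B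
  have hN1 : 1 ≤ N := by
    have := (lab 0).pos
    omega
  refine ⟨N, hN1, hN, fun D y l hl T hT => ?_⟩
  obtain ⟨E, hE1, hE2⟩ := real_E hCNT hn hN1 T (fun i j => lab (y i j).re)
  refine ⟨E, hE1, ?_⟩
  have hnorm : ∀ i ∈ T, ∀ j, ‖y i j‖ = |(y i j).re| := by
    intro i hi j
    rw [← hT i hi j, Complex.norm_real, Real.norm_eq_abs, Complex.ofReal_re]
  have h1 := hRDET D n B (Matrix.of fun i k : Fin D => ∏ j, y i j ^ l k j) T (Fin n → Fin N)
    (fun i j => lab (y i j).re) (fun i => ∏ j, (max 1 ‖y i j‖) ^ B)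
    (fun i μ => ((∏ j, p (y i j).re (μ j) : ℝ) : ℂ))
    (fun κ μ k => ((∏ j, c (κ j) (μ j) (l k j) : ℝ) : ℂ)) (3 ^ n) (by positivity)
    (fun i => Finset.prod_nonneg fun j _ => by positivity) ?_ ?_ ?_ E hE2
  · exact h1
  · -- the expansion
    intro i hi k
    have h2 : (Matrix.of fun i k : Fin D => ∏ j, y i j ^ l k j) i k =
        ((∏ j, (y i j).re ^ l k j : ℝ) : ℂ) := by
      rw [Matrix.of_apply]
      push_cast
      refine Finset.prod_congr rfl fun j _ => ?_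
      rw [hT i hi j]
    rw [h2]
    have h3 : ∏ j, (y i j).re ^ l k j = (∏ j, (max 1 ‖y i j‖) ^ B) *
        ∑ μ : Fin n → Fin (B + 1), (∏ j, p (y i j).re (μ j)) *
          ∏ j, c (lab (y i j).re) (μ j) (l k j) := by
      have h4 : ∀ j, (y i j).re ^ l k j = (max 1 ‖y i j‖) ^ B *
          ∑ r : Fin (B + 1), p (y i j).re r * c (lab (y i j).re) r (l k j) := by
        intro j
        rw [hnorm i hi j, (hc (y i j).re (l k j) (hl k j)).1, Finset.sum_range]
      rw [Finset.prod_congr rfl fun j _ => h4 j, Finset.prod_mul_distrib]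
      congr 1
      rw [Finset.prod_univ_sum, Fintype.piFinset_univ]
      refine Finset.sum_congr rfl fun μ _ => ?_
      rw [Finset.prod_mul_distrib]
    rw [h3]
    push_cast
    rfl
  · -- the size
    intro i hi μ k
    rw [← Complex.ofReal_mul, Complex.norm_real, Real.norm_eq_abs, ← Finset.prod_mul_distrib,
      Finset.abs_prod]
    calc ∏ j, |p (y i j).re (μ j) * c (lab (y i j).re) (μ j) (l k j)| ≤
          ∏ j, (3 / 4 ^ (μ j : ℕ) : ℝ) := by
          refine Finset.prod_le_prod (fun j _ => abs_nonneg _) fun j _ => ?_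
          exact (hc (y i j).re (l k j) (hl k j)).2 _ (Nat.le_of_lt_succ (μ j).2)
      _ = 3 ^ n / 4 ^ (∑ j, (μ j : ℕ)) := by
          rw [Finset.prod_div_distrib, Finset.prod_const, Finset.card_univ, Fintype.card_fin,
            Finset.prod_pow_eq_pow_sum]
  · intro i _ k
    rw [Matrix.of_apply, norm_prod]
    refine Finset.prod_le_prod (fun j _ => norm_nonneg _) fun j _ => ?_
    rw [norm_pow]
    calc ‖y i j‖ ^ l k j ≤ (max 1 ‖y i j‖) ^ l k j :=
          pow_le_pow_left₀ (norm_nonneg _) (le_max_right _ _) _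
      _ ≤ (max 1 ‖y i j‖) ^ B := pow_le_pow_right₀ (le_max_left _ _) (hl k j)

end Pool.Agent.Q188.RV
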