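import Pool.Agent.Q188.RV.Loc
import Pool.Agent.Q188.RV.Arc
import Pool.Agent.Y642.ND.ATop

/-!
# The relative inequality
-/

set_option autoImplicit false
set_option linter.unusedSectionVars false

open Finset Polynomial Module NumberField ValuativeRel Pool.Agent.Y642.LZ

universe v

namespace Pool.Agent.Q188.RV

open Pool.Agent.Y642.ND (gain wh log_r_le')

variable {k F : Type} [Field k] [NumberField k] [Field F] [NumberField F] [Algebra k F]

/-- real points among the embeddings over `τ` -/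
lemma sum_fib {Ω : Type} [Field Ω] [CharZero Ω] [IsAlgClosed Ω] [Fintype (k →+* Ω)]
    [Fintype (F →+* Ω)]
    (ε : ∀ τ : k →+* Ω, Fin (finrank k F) ≃ Over (F := F) k τ) (g : (F →+* Ω) → ℝ) :
    ∑ τ, ∑ i, g (ε τ i).1 = ∑ σ, g σ := by
  rw [← Equiv.sum_comp (allEquiv ε) g, Fintype.sum_prod_type_right]
  rfl

/-- the inequality in terms of the moments -/
theorem rel_mom {n : ℕ} (hn : 1 ≤ n)
    {x : Fin n → F} {f : Fin n → ℤ[X]} (hf : ∀ j, Irreducible (f j))
    (hx : ∀ j, aeval (x j) (f j) = 0) {B : ℕ}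
    (hM : Submodule.span k {z : F | ∃ e : Fin n → ℕ, (∀ j, e j ≤ B) ∧ z = ∏ j, x j ^ e j} = ⊤)
    {ι : Type v} (s : Finset ι) (P : ι → Place.{0}) (hinj : Set.InjOn (fun i => (P i).p) s)
    (T : (i : ι) → Finset (F →+* AlgebraicClosure (P i).K))
    (hT : ∀ i ∈ s, ∀ σ ∈ T i, ∀ j, ∃ z : 𝒪[(P i).K],
      algebraMap 𝒪[(P i).K] (AlgebraicClosure (P i).K) z = σ (x j))
    (T0 : Finset (F →+* ℂ)) (hT0 : ∀ σ ∈ T0, ∀ j, (((σ (x j)).re : ℝ) : ℂ) = σ (x j)) :
    ∃ N : ℕ, 1 ≤ N ∧ (N : ℝ) ≤ 16 * Real.log (B + 2) ∧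
      ∑ i ∈ s, 2 * Real.log (P i).p / ((P i).e * (P i).q) *
        ((n : ℝ) / (n + 1) * (mom k n (T i) / finrank ℚ k) -
          (n * (((P i).q : ℝ) - 1) + 2) * ((T i).card / finrank ℚ k)) +
      2 * Real.log 2 * ((n : ℝ) / (n + 1) * (mom k n T0 / finrank ℚ k) / N -
        2 * (T0.card / finrank ℚ k)) ≤
      (finrank k F : ℝ) * Real.log (finrank k F) + 2 * n * Real.log 6 * (T0.card / finrank ℚ k) +
        2 * (finrank k F : ℝ) * (B * ∑ j, wh (f j)) := by
  classical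
  have hfinm : Module.Finite k F := Module.Finite.of_restrictScalars_finite ℚ k F
  choose m hm using fun j => Pool.Agent.Y756.ND.deg F (x j) (f j) (hf j) (hx j)
  obtain ⟨l, d, hl, hd0, hd⟩ := exists_disc x (fun _ => B) hM
  obtain ⟨r, hr⟩ := exists_r Pool.Agent.Y412.ND.t Pool.Agent.Y730.ND.Int.t hf hx hm hl hd
  obtain ⟨N, hN1, hN, harc⟩ := arc_real Pool.Agent.Y983.ND.t Pool.Agent.Y657.ND.t
    Pool.Agent.Y730.ND.Cnt.t hn B
  refine ⟨N, hN1, hN, ?_⟩
  set m0 : ℝ := (finrank ℚ k : ℝ) with hm0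
  have hm0pos : 0 < m0 := by
    rw [hm0]
    exact_mod_cast (finrank_pos : 0 < finrank ℚ k)
  let ε : ∀ τ : k →+* ℂ, Fin (finrank k F) ≃ Over (F := F) k τ := fun τ =>
    (exists_enum (F := F) τ).some
  have hne : Nonempty (k →+* ℂ) := inferInstance
  have hcardk : (Fintype.card (k →+* ℂ) : ℝ) = m0 := by
    rw [hm0, NumberField.Embeddings.card]
  -- the real rows of the blocks
  let TR : (k →+* ℂ) → Finset (Fin (finrank k F)) := fun τ =>
    Finset.univ.filter fun i => (ε τ i).1 ∈ T0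
  have hTRsum : ∑ τ, ((TR τ).card : ℝ) = T0.card := by
    have h1 := sum_fib ε (fun σ => if σ ∈ T0 then (1 : ℝ) else 0)
    rw [Finset.sum_ite_mem, Finset.univ_inter, Finset.sum_const, nsmul_eq_mul, mul_one] at h1
    rw [← h1]
    refine Finset.sum_congr rfl fun τ _ => ?_
    rw [Finset.sum_ite, Finset.sum_const_zero, add_zero, Finset.sum_const, nsmul_eq_mul, mul_one]
  have hreal : ∀ τ, ∀ i ∈ TR τ, ∀ j, (((((ε τ i).1 (x j)).re : ℝ)) : ℂ) = (ε τ i).1 (x j) := by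
    intro τ i hi j
    exact hT0 _ (Finset.mem_filter.mp hi).2 j
  choose E hE hdet using fun τ => harc (finrank k F) (fun i j => (ε τ i).1 (x j)) l hl (TR τ)
    (hreal τ)
  have hdC := hd ℂ ε
  set Δ : (k →+* ℂ) → ℂ := fun τ => (wblk x l τ (ε τ)).det with hΔ
  have hnd : |(d : ℝ)| = (∏ τ, ‖Δ τ‖) ^ 2 := by
    rw [← norm_prod, ← norm_pow, ← hdC, show ((d : ℚ) : ℂ) = ((d : ℝ) : ℂ) by push_cast; rfl,
      Complex.norm_real, Real.norm_eq_abs]
  have hΔ0 : ∀ τ, 0 < ‖Δ τ‖ := by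
    intro τ
    rw [norm_pos_iff]
    intro h0
    have h1 : ∏ τ, Δ τ = 0 := Finset.prod_eq_zero (Finset.mem_univ τ) h0
    rw [h1, zero_pow two_ne_zero] at hdC
    exact hd0 (by exact_mod_cast hdC)
  have hD0 : (0 : ℝ) < finrank k F := by exact_mod_cast (finrank_pos : 0 < finrank k F)
  have hmx : ∀ τ i j, (0 : ℝ) < max 1 ‖(ε τ i).1 (x j)‖ := fun τ i j =>
    lt_of_lt_of_le one_pos (le_max_left _ _)
  have hblk : ∀ τ, Real.log ‖Δ τ‖ ≤ -(Real.log 2 * E τ) + n * Real.log 6 * (TR τ).card +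
      (finrank k F : ℝ) * Real.log (finrank k F) / 2 +
      ∑ i, ∑ j, (B : ℝ) * Real.log (max 1 ‖(ε τ i).1 (x j)‖) := by
    intro τ
    have hprod : (0 : ℝ) < ∏ i, ∏ j, (max 1 ‖(ε τ i).1 (x j)‖) ^ B :=
      Finset.prod_pos fun i _ => Finset.prod_pos fun j _ => pow_pos (hmx τ i j) _
    have hsq : (0 : ℝ) < Real.sqrt ((finrank k F : ℝ) ^ finrank k F) :=
      Real.sqrt_pos.mpr (pow_pos hD0 _)
    have h6 : (2 : ℝ) ^ n * 3 ^ n = 6 ^ n := by rw [← mul_pow]; norm_num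
    have h0 : ‖Δ τ‖ ≤ (1 / 2) ^ E τ * (6 ^ n) ^ (TR τ).card *
        Real.sqrt ((finrank k F : ℝ) ^ finrank k F) *
          ∏ i, ∏ j, (max 1 ‖(ε τ i).1 (x j)‖) ^ B := by
      have := hdet τ
      rw [h6] at this
      exact this
    have h1 := Real.log_le_log (hΔ0 τ) h0
    rw [Real.log_mul (by positivity) hprod.ne', Real.log_mul (by positivity) hsq.ne',
      Real.log_mul (by positivity) (by positivity), Real.log_pow, Real.log_pow, Real.log_pow,
      Real.log_sqrt (pow_pos hD0 _).le, Real.log_pow, one_div, Real.log_inv,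
      Real.log_prod (fun i _ => (Finset.prod_pos fun j _ => pow_pos (hmx τ i j) _).ne')] at h1
    have h3 : ∀ i, Real.log (∏ j, (max 1 ‖(ε τ i).1 (x j)‖) ^ B) =
        ∑ j, (B : ℝ) * Real.log (max 1 ‖(ε τ i).1 (x j)‖) := by
      intro i
      rw [Real.log_prod (fun j _ => (pow_pos (hmx τ i j) _).ne')]
      refine Finset.sum_congr rfl fun j _ => ?_
      rw [Real.log_pow]
    rw [Finset.sum_congr rfl fun i _ => h3 i] at h1
    linarith
  have hUb : ∑ τ, Real.log ‖Δ τ‖ ≤ -(Real.log 2 * ∑ τ, (E τ : ℝ)) + n * Real.log 6 * T0.card +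
      m0 * ((finrank k F : ℝ) * Real.log (finrank k F) / 2) +
      ∑ j, (B : ℝ) * ∑ σ : F →+* ℂ, Real.log (max 1 ‖σ (x j)‖) := by
    refine (Finset.sum_le_sum fun τ _ => hblk τ).trans (le_of_eq ?_)
    rw [Finset.sum_add_distrib, Finset.sum_add_distrib, Finset.sum_add_distrib,
      Finset.sum_neg_distrib, ← Finset.mul_sum, ← Finset.mul_sum, hTRsum, Finset.sum_const,
      Finset.card_univ, nsmul_eq_mul, hcardk]
    congr 1
    have h1 := sum_fib ε (fun σ => ∑ j, (B : ℝ) * Real.log (max 1 ‖σ (x j)‖))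
    rw [h1, Finset.sum_comm]
    refine Finset.sum_congr rfl fun j _ => ?_
    rw [Finset.mul_sum]
  have hU : Real.log |(d : ℝ)| ≤
      (-(2 * Real.log 2 * ∑ τ, (E τ : ℝ)) + 2 * n * Real.log 6 * T0.card +
        m0 * ((finrank k F : ℝ) * Real.log (finrank k F))) +
      ∑ j : Fin n, 2 * (((fun _ => B) j : ℕ) : ℝ) *
        ∑ σ : F →+* ℂ, Real.log (max 1 ‖σ (x j)‖) := by
    rw [hnd, Real.log_pow, Real.log_prod (fun τ _ => (hΔ0 τ).ne')]
    have h7 : ∑ j : Fin n, 2 * (B : ℝ) * ∑ σ : F →+* ℂ, Real.log (max 1 ‖σ (x j)‖) =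
        2 * ∑ j : Fin n, (B : ℝ) * ∑ σ : F →+* ℂ, Real.log (max 1 ‖σ (x j)‖) := by
      rw [Finset.mul_sum]
      exact Finset.sum_congr rfl fun j _ => by ring
    show ((2 : ℕ) : ℝ) * ∑ τ, Real.log ‖Δ τ‖ ≤ _ + ∑ j : Fin n, 2 * (B : ℝ) *
      ∑ σ : F →+* ℂ, Real.log (max 1 ‖σ (x j)‖)
    rw [h7]
    push_cast
    linarith
  obtain ⟨hr0, h8⟩ := log_r_le' Pool.Agent.Y412.ND.t hf hx (M := fun _ => B) hm hd0 hr hU
  rw [← Finset.mul_sum] at h8
  have hlog2 : 0 < Real.log 2 := Real.log_pos (by norm_num)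
  have hNpos : (0 : ℝ) < N := by exact_mod_cast hN1
  -- the real part
  have hTRfib : ∀ τ, (TR τ).card = fib T0 τ := by
    intro τ
    unfold fib
    refine Finset.card_bij (fun i _ => (ε τ i).1) (fun i hi => ?_) (fun i _ i' _ h => ?_)
      (fun σ hσ => ?_)
    · exact Finset.mem_filter.mpr ⟨(Finset.mem_filter.mp hi).2, (ε τ i).2⟩
    · exact (ε τ).injective (Subtype.ext h)
    · have h1 := Finset.mem_filter.mp hσ
      refine ⟨(ε τ).symm ⟨σ, h1.2⟩, ?_, ?_⟩
      · rw [Finset.mem_filter]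
        refine ⟨Finset.mem_univ _, ?_⟩
        rw [Equiv.apply_symm_apply]
        exact h1.1
      · rw [Equiv.apply_symm_apply]
  have h9 : m0 * ((n : ℝ) / (n + 1) * (mom k n T0 / m0) / N - 2 * (T0.card / m0)) ≤
      ∑ τ, (E τ : ℝ) := by
    have h1 : ∑ τ, ((n : ℝ) / (n + 1) * ((TR τ).card : ℝ) ^ (1 + 1 / (n : ℝ)) / N -
        2 * ((TR τ).card : ℝ)) ≤ ∑ τ, (E τ : ℝ) := Finset.sum_le_sum fun τ _ => hE τ
    refine le_trans (le_of_eq ?_) h1
    rw [Finset.sum_sub_distrib, ← Finset.mul_sum, hTRsum, ← Finset.sum_div, ← Finset.mul_sum]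
    simp only [hTRfib]
    rw [← mom_eq hn]
    field_simp
  have h9' := mul_le_mul_of_nonneg_left h9 (by positivity : 0 ≤ 2 * Real.log 2)
  -- the local parts
  have h10 : ∑ i ∈ s, 2 * Real.log (P i).p / ((P i).e * (P i).q) *
      (m0 * ((n : ℝ) / (n + 1) * (mom k n (T i) / m0) -
          (n * (((P i).q : ℝ) - 1) + 2) * ((T i).card / m0))) ≤ Real.log |(r : ℝ)| := by
    refine le_trans (Finset.sum_le_sum (g := fun i => (padicValInt (P i).p r : ℝ) *
      Real.log (P i).p) fun i hi => ?_)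
      (log_ge s (fun i => (P i).p) (fun i _ => (P i).hp) hinj hr0)
    obtain ⟨E', hE1, hE2⟩ := locl (P i) Pool.Agent.Y412.ND.t Pool.Agent.Y730.ND.New.t
      Pool.Agent.Y730.ND.Int.t Pool.Agent.Y730.ND.Cnt.t hn hf hx hm hl hd hr (T i) (hT i hi)
    have h1 : 2 * E' ≤ (P i).e * padicValInt (P i).p r :=
      val_le (P i).toLoc.notUnit (P i).hp (P i).he (P i).toLoc.assoc hr0 hE2
    have h2 : (2 : ℝ) * E' ≤ (P i).e * padicValInt (P i).p r := by exact_mod_cast h1
    have he0 : (0 : ℝ) < (P i).e := by exact_mod_cast (P i).he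
    have hq2 : 2 ≤ (P i).q := by
      have := (P i).toLoc.two_le_q
      rwa [Place.toLoc_q] at this
    have hq0 : (0 : ℝ) < (P i).q := by exact_mod_cast (by omega : 0 < (P i).q)
    have hlog0 : 0 ≤ Real.log (P i).p := Real.log_natCast_nonneg _
    have h3 : 2 * Real.log (P i).p / ((P i).e * (P i).q) *
        (m0 * ((n : ℝ) / (n + 1) * (mom k n (T i) / m0) -
          (n * (((P i).q : ℝ) - 1) + 2) * ((T i).card / m0))) ≤
        2 * Real.log (P i).p / ((P i).e * (P i).q) * ((P i).q * E') := by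
      refine mul_le_mul_of_nonneg_left (le_trans (le_of_eq ?_) hE1) (by positivity)
      field_simp
    refine h3.trans ?_
    have h4 : 2 * Real.log (P i).p / ((P i).e * (P i).q) * ((P i).q * E') =
        (2 * E' / (P i).e) * Real.log (P i).p := by
      field_simp
    rw [h4]
    apply mul_le_mul_of_nonneg_right _ hlog0
    rw [div_le_iff₀ he0]
    linarith
  have h11 : ∑ i ∈ s, 2 * Real.log (P i).p / ((P i).e * (P i).q) *
      (m0 * ((n : ℝ) / (n + 1) * (mom k n (T i) / m0) -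
          (n * (((P i).q : ℝ) - 1) + 2) * ((T i).card / m0))) =
      m0 * ∑ i ∈ s, 2 * Real.log (P i).p / ((P i).e * (P i).q) *
        ((n : ℝ) / (n + 1) * (mom k n (T i) / m0) -
          (n * (((P i).q : ℝ) - 1) + 2) * ((T i).card / m0)) := by
    rw [Finset.mul_sum]
    exact Finset.sum_congr rfl fun i _ => by ring
  rw [h11] at h10
  have hFk : (finrank ℚ F : ℝ) = m0 * finrank k F := by
    rw [hm0]
    exact_mod_cast (Module.finrank_mul_finrank ℚ k F).symm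
  rw [hFk] at h8
  have h12 : m0 * (∑ i ∈ s, 2 * Real.log (P i).p / ((P i).e * (P i).q) *
        ((n : ℝ) / (n + 1) * (mom k n (T i) / m0) -
          (n * (((P i).q : ℝ) - 1) + 2) * ((T i).card / m0)) +
      2 * Real.log 2 * ((n : ℝ) / (n + 1) * (mom k n T0 / m0) / N -
        2 * (T0.card / m0))) ≤
      m0 * ((finrank k F : ℝ) * Real.log (finrank k F) + 2 * n * Real.log 6 * (T0.card / m0) +
        2 * (finrank k F : ℝ) * (B * ∑ j, wh (f j))) := by
    have h13 : m0 * (2 * n * Real.log 6 * (T0.card / m0)) = 2 * n * Real.log 6 * T0.card := by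
      field_simp
    rw [mul_add, mul_add, mul_add, h13]
    nlinarith
  exact le_of_mul_le_mul_left h12 hm0pos

end Pool.Agent.Q188.RV
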