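import Mathlib

/-!
# A relative basis of monomials, its discriminant as a block determinant
-/

set_option autoImplicit false
set_option linter.unusedSectionVars false

open Finset Polynomial Module

namespace Pool.Agent.Q188.RV

variable {k F : Type} [Field k] [NumberField k] [Field F] [NumberField F] [Algebra k F]

/-- the embeddings of `F` over the embedding `τ` of `k` -/
abbrev Over (k : Type) {F : Type} [Field k] [Field F] [Algebra k F] {Ω : Type} [Field Ω]
    (τ : k →+* Ω) : Type := {σ : F →+* Ω // σ.comp (algebraMap k F) = τ}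

/-- embeddings over `τ` as algebra homomorphisms -/
noncomputable def overEquiv {Ω : Type} [Field Ω] (τ : k →+* Ω) :
    letI := τ.toAlgebra
    Over (F := F) k τ ≃ (F →ₐ[k] Ω) :=
  letI := τ.toAlgebra
  { toFun := fun σ => { σ.1 with commutes' := fun r => RingHom.congr_fun σ.2 r }
    invFun := fun φ => ⟨φ.toRingHom, by
      ext r
      exact φ.commutes r⟩
    left_inv := fun σ => by
      apply Subtype.ext
      ext y
      rfl
    right_inv := fun φ => by
      ext y
      rfl }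

lemma over_card {Ω : Type} [Field Ω] [CharZero Ω] [IsAlgClosed Ω] (τ : k →+* Ω) :
    Nat.card (Over (F := F) k τ) = finrank k F := by
  letI := τ.toAlgebra
  have : Module.Finite k F := Module.Finite.of_restrictScalars_finite ℚ k F
  have h := Nat.card_congr (overEquiv (F := F) τ)
  rw [h, Nat.card_eq_fintype_card, AlgHom.card]

lemma exists_enum {Ω : Type} [Field Ω] [CharZero Ω] [IsAlgClosed Ω] (τ : k →+* Ω) :
    Nonempty (Fin (finrank k F) ≃ Over (F := F) k τ) := by
  have hpos : 0 < finrank k F := by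
    have : Module.Finite k F := Module.Finite.of_restrictScalars_finite ℚ k F
    exact finrank_pos
  have hfin : Finite (Over (F := F) k τ) := Nat.finite_of_card_ne_zero (by
    rw [over_card]
    exact hpos.ne')
  rw [← over_card (F := F) τ]
  exact ⟨(Finite.equivFin _).symm⟩

/-- the blocks of the matrix -/
noncomputable def wblk {n : ℕ} (x : Fin n → F) (l : Fin (finrank k F) → Fin n → ℕ) {Ω : Type}
    [Field Ω] (τ : k →+* Ω) (ε : Fin (finrank k F) ≃ Over (F := F) k τ) :
    Matrix (Fin (finrank k F)) (Fin (finrank k F)) Ω :=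
  Matrix.of fun i c => ∏ j, (ε i).1 (x j) ^ l c j

lemma blk_det {n : ℕ} (x : Fin n → F) (l : Fin (finrank k F) → Fin n → ℕ)
    (b : Basis (Fin (finrank k F)) k F) (hb : ∀ c, b c = ∏ j, x j ^ l c j) {Ω : Type} [Field Ω]
    [CharZero Ω] [IsAlgClosed Ω] (τ : k →+* Ω) (ε : Fin (finrank k F) ≃ Over (F := F) k τ) :
    τ (Algebra.discr k b) = (wblk x l τ ε).det ^ 2 := by
  letI := τ.toAlgebra
  have : Module.Finite k F := Module.Finite.of_restrictScalars_finite ℚ k F
  have h1 := Algebra.discr_eq_det_embeddingsMatrixReindex_pow_two k Ω b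
    (ε.trans (overEquiv τ))
  have h0 : algebraMap k Ω (Algebra.discr k b) = τ (Algebra.discr k b) := rfl
  rw [h0] at h1
  rw [h1]
  congr 1
  rw [← Matrix.det_transpose]
  congr 1
  ext i c
  have h2 : Algebra.embeddingsMatrixReindex k Ω b (ε.trans (overEquiv τ)) c i =
      (ε i).1 (b c) := by
    simp only [Algebra.embeddingsMatrixReindex, Algebra.embeddingsMatrix, Matrix.reindex_apply,
      Matrix.submatrix_apply, Equiv.refl_symm, Equiv.coe_refl, id_eq, Matrix.of_apply,
      Equiv.symm_symm, Equiv.trans_apply]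
    rfl
  rw [Matrix.transpose_apply, h2, hb, map_prod]
  show _ = ∏ j, (ε i).1 (x j) ^ l c j
  exact prod_congr rfl fun j _ => map_pow _ _ _

/-- all embeddings of `F` as pairs -/
noncomputable def allEquiv {Ω : Type} [Field Ω]
    (ε : ∀ τ : k →+* Ω, Fin (finrank k F) ≃ Over (F := F) k τ) :
    Fin (finrank k F) × (k →+* Ω) ≃ (F →+* Ω) where
  toFun p := (ε p.2 p.1).1
  invFun σ := ((ε (σ.comp (algebraMap k F))).symm ⟨σ, rfl⟩, σ.comp (algebraMap k F))
  left_inv := by
    rintro ⟨i, τ⟩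
    have key : ∀ (τ : k →+* Ω) (s : Over (F := F) k τ),
        ((ε (s.1.comp (algebraMap k F))).symm ⟨s.1, rfl⟩, s.1.comp (algebraMap k F)) =
          ((ε τ).symm s, τ) := by
      rintro τ ⟨σ, rfl⟩
      rfl
    refine (key τ (ε τ i)).trans ?_
    rw [Equiv.symm_apply_apply]
  right_inv := fun σ => by simp

open Classical in
/-- the indicator of a block -/
noncomputable def chi {Ω : Type} [Field Ω] (τ : k →+* Ω) (σ : F →+* Ω) : ℤ :=
  if τ = σ.comp (algebraMap k F) then 1 else 0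

/-- the full matrix -/
noncomputable def wall {n : ℕ} (x : Fin n → F) (l : Fin (finrank k F) → Fin n → ℕ) {Ω : Type}
    [Field Ω] (ε : ∀ τ : k →+* Ω, Fin (finrank k F) ≃ Over (F := F) k τ) :
    Matrix (F →+* Ω) (F →+* Ω) Ω :=
  Matrix.of fun σ σ' => (chi (σ.comp (algebraMap k F)) σ' : Ω) *
    ∏ j, σ (x j) ^ l ((allEquiv ε).symm σ').1 j

lemma wall_det {n : ℕ} (x : Fin n → F) (l : Fin (finrank k F) → Fin n → ℕ) {Ω : Type}
    [Field Ω] [CharZero Ω] [IsAlgClosed Ω]
    [Fintype (F →+* Ω)] [DecidableEq (F →+* Ω)] [Fintype (k →+* Ω)]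
    (ε : ∀ τ : k →+* Ω, Fin (finrank k F) ≃ Over (F := F) k τ) :
    (wall x l ε).det = ∏ τ, (wblk x l τ (ε τ)).det := by
  classical
  rw [← Matrix.det_submatrix_equiv_self (allEquiv ε), ← Matrix.det_blockDiagonal]
  congr 1
  ext ⟨i, τ⟩ ⟨c, τ'⟩
  rw [Matrix.submatrix_apply, Matrix.blockDiagonal_apply]
  have hr : ∀ (i : Fin (finrank k F)) (τ : k →+* Ω),
      (allEquiv ε (i, τ)).comp (algebraMap k F) = τ := fun i τ => (ε τ i).2
  show (chi ((allEquiv ε (i, τ)).comp (algebraMap k F)) (allEquiv ε (c, τ')) : Ω) *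
    ∏ j, (allEquiv ε (i, τ)) (x j) ^ l ((allEquiv ε).symm (allEquiv ε (c, τ'))).1 j = _
  rw [hr, Equiv.symm_apply_apply]
  unfold chi
  rw [hr]
  by_cases h : τ = τ'
  · subst h
    simp only [if_true, Int.cast_one, one_mul]
    rfl
  · simp [h]

/-- the product of the squares of the determinants of the blocks -/
theorem exists_disc {n : ℕ} (x : Fin n → F) (M : Fin n → ℕ)
    (hspan : Submodule.span k {z : F | ∃ e : Fin n → ℕ, (∀ j, e j ≤ M j) ∧ z = ∏ j, x j ^ e j} =
      ⊤) :
    ∃ (l : Fin (finrank k F) → Fin n → ℕ) (d : ℚ), (∀ c j, l c j ≤ M j) ∧ d ≠ 0 ∧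
      ∀ (Ω : Type) [Field Ω] [CharZero Ω] [IsAlgClosed Ω] [Fintype (k →+* Ω)]
        (ε : ∀ τ : k →+* Ω, Fin (finrank k F) ≃ Over (F := F) k τ),
        (d : Ω) = (∏ τ, (wblk x l τ (ε τ)).det) ^ 2 := by
  classical
  have hfinm : Module.Finite k F := Module.Finite.of_restrictScalars_finite ℚ k F
  obtain ⟨b, hbs, hb1, hb2⟩ := exists_linearIndependent k
    {z : F | ∃ e : Fin n → ℕ, (∀ j, e j ≤ M j) ∧ z = ∏ j, x j ^ e j}
  rw [hspan] at hb1
  obtain ⟨B, hB⟩ : ∃ B : Basis b k F, ∀ i, B i = (i : F) := by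
    refine ⟨Basis.mk hb2 ?_, fun i => ?_⟩
    · rw [Subtype.range_coe, hb1]
    · rw [Basis.mk_apply]
  have hfin : Fintype b := FiniteDimensional.fintypeBasisIndex B
  have hcard : Fintype.card b = finrank k F := (Module.finrank_eq_card_basis B).symm
  obtain ⟨e0⟩ : Nonempty (b ≃ Fin (finrank k F)) := ⟨Fintype.equivFinOfCardEq hcard⟩
  have hl : ∀ c : Fin (finrank k F), ∃ l : Fin n → ℕ, (∀ j, l j ≤ M j) ∧
      ((e0.symm c : b) : F) = ∏ j, x j ^ l j := fun c => hbs (e0.symm c).2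
  choose l hl1 hl2 using hl
  have hBr : ∀ c, (B.reindex e0) c = ∏ j, x j ^ l c j := by
    intro c
    rw [Basis.reindex_apply, hB, hl2]
  refine ⟨l, Algebra.norm ℚ (Algebra.discr k (B.reindex e0)), hl1, ?_, ?_⟩
  · rw [Ne, Algebra.norm_eq_zero_iff]
    exact Algebra.discr_not_zero_of_basis k _
  · intro Ω _ _ _ _ ε
    have h1 := Algebra.norm_eq_prod_embeddings ℚ Ω (Algebra.discr k (B.reindex e0))
    rw [eq_ratCast] at h1
    rw [h1, ← Finset.prod_pow]
    have h2 : ∏ σ : k →ₐ[ℚ] Ω, σ (Algebra.discr k (B.reindex e0)) =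
        ∏ τ : k →+* Ω, τ (Algebra.discr k (B.reindex e0)) :=
      (Fintype.prod_equiv (RingHom.equivRatAlgHom k Ω) _ _ (fun σ => rfl)).symm
    rw [h2]
    exact Finset.prod_congr rfl fun τ _ => blk_det x l _ hBr τ (ε τ)

end Pool.Agent.Q188.RV
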