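import Pool.Agent.Y642.ND.Stm

/-!
# Divisibility of a block interpolation determinant

A variant of `Y109.ND.Det` for matrices which consist of blocks.
-/

set_option autoImplicit false

open Finset

universe u

namespace Pool.Agent.Q188.RV

section

variable {A Ω : Type u} [CommRing A] [Field Ω] [Algebra A Ω] {J : Type} [Fintype J]
  [DecidableEq J] {n : ℕ}

/-- the determinant with some rows replaced by constants -/
theorem int_det {y : J → Fin n → Ω} {l : J → Fin n → ℕ} {M : Fin n → ℕ} {a : Fin n → Ω}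
    (hl : ∀ k j, l k j ≤ M j)
    (hint : ∀ (j : Fin n) (S : Finset J) (l' : J → ℕ), (∀ σ ∈ S, l' σ ≤ M j) →
      IsIntegral ℤ (a j ^ M j * ∏ σ ∈ S, y σ j ^ l' σ))
    (χ : J → J → ℤ) (T : Finset J) (b : J → J → A) :
    IsIntegral A ((∏ j, a j ^ M j) * (Matrix.of fun i k : J => if i ∈ T then
      algebraMap A Ω (b i k) else (χ i k : Ω) * ∏ j, y i j ^ l k j).det) := by
  rw [← Matrix.det_transpose, Matrix.det_apply', Finset.mul_sum]
  refine IsIntegral.sum _ fun σ _ => ?_
  have e1 : ∏ i, (Matrix.of fun i k : J => if i ∈ T then algebraMap A Ω (b i k) else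
      (χ i k : Ω) * ∏ j, y i j ^ l k j).transpose (σ i) i = (∏ i ∈ T, algebraMap A Ω (b i (σ i))) *
        ((∏ i ∈ Tᶜ, (χ i (σ i) : Ω)) * ∏ i ∈ Tᶜ, ∏ j, y i j ^ l (σ i) j) := by
    rw [← Finset.prod_mul_prod_compl T, ← Finset.prod_mul_distrib]
    congr 1
    · refine Finset.prod_congr rfl fun i hi => ?_
      simp [Matrix.transpose_apply, hi]
    · refine Finset.prod_congr rfl fun i hi => ?_
      simp [Matrix.transpose_apply, Finset.mem_compl.1 hi]
  rw [e1]
  have e2 : (∏ j, a j ^ M j) * (((Equiv.Perm.sign σ : ℤ) : Ω) *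
      ((∏ i ∈ T, algebraMap A Ω (b i (σ i))) *
        ((∏ i ∈ Tᶜ, (χ i (σ i) : Ω)) * ∏ i ∈ Tᶜ, ∏ j, y i j ^ l (σ i) j))) =
      ((((Equiv.Perm.sign σ : ℤ) * ∏ i ∈ Tᶜ, χ i (σ i) : ℤ)) : Ω) *
        (∏ i ∈ T, algebraMap A Ω (b i (σ i))) *
        ∏ j, (a j ^ M j * ∏ i ∈ Tᶜ, y i j ^ l (σ i) j) := by
    rw [Finset.prod_comm, Finset.prod_mul_distrib]
    push_cast
    ring
  rw [e2]
  refine IsIntegral.mul (IsIntegral.mul ?_ ?_) ?_
  · rw [← map_intCast (algebraMap A Ω)]
    exact isIntegral_algebraMap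
  · rw [← map_prod]
    exact isIntegral_algebraMap
  · refine IsIntegral.prod _ fun j _ => ?_
    exact (hint j Tᶜ (fun i => l (σ i) j) fun i _ => hl _ _).tower_top

end

/-- the local divisibility of the determinant of a block matrix -/
theorem det_blk {A Ω : Type u} [CommRing A] [Field Ω] [Algebra A Ω]
    {J : Type} [Fintype J] [DecidableEq J] {n : ℕ} {y : J → Fin n → Ω} {l : J → Fin n → ℕ}
    {M : Fin n → ℕ} {a : Fin n → Ω} (hl : ∀ k j, l k j ≤ M j)
    (hint : ∀ (j : Fin n) (S : Finset J) (l' : J → ℕ), (∀ σ ∈ S, l' σ ≤ M j) →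
      IsIntegral ℤ (a j ^ M j * ∏ σ ∈ S, y σ j ^ l' σ))
    {β : Type} (blk : J → β) (χ : β → J → ℤ)
    {π : A} {q : ℕ} {v : ℕ → A} {c : ℕ → ℕ → A}
    (hv : ∀ (k : ℕ) (t : A), π ^ (k / q) ∣ ∏ r ∈ Finset.range k, (t - v r))
    (hc : ∀ (m : ℕ) (t : A), t ^ m =
      ∑ k ∈ Finset.range (m + 1), c m k * ∏ r ∈ Finset.range k, (t - v r))
    (hc0 : ∀ m k : ℕ, m < k → c m k = 0)
    {T : Finset J} {t : J → Fin n → A} (ht : ∀ σ ∈ T, ∀ j, algebraMap A Ω (t σ j) = y σ j)
    {E : ℕ} (hE : ∀ g : J → Fin n → ℕ,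
      (∀ i ∈ T, ∀ i' ∈ T, blk i = blk i' → g i = g i' → i = i') →
      E ≤ ∑ σ ∈ T, ∑ j, g σ j / q) :
    ∃ z : Ω, IsIntegral A z ∧
      (∏ j, a j ^ M j) * (Matrix.of fun i k : J => (χ (blk i) k : Ω) * ∏ j, y i j ^ l k j).det =
        algebraMap A Ω (π ^ E) * z := by
  classical
  let Nw : ℕ → A → A := fun k t => ∏ r ∈ range k, (t - v r)
  let Box : Finset (Fin n → ℕ) := Fintype.piFinset fun j => range (M j + 1)
  let cm : (Fin n → ℕ) → J → A := fun μ k => ∏ j, c (l k j) (μ j)
  let Pm : (Fin n → ℕ) → J → A := fun μ i => ∏ j, Nw (μ j) (t i j)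
  let W : J → J → Ω := fun i k => (χ (blk i) k : Ω) * ∏ j, y i j ^ l k j
  have hW : ∀ i ∈ T, W i = ∑ μ ∈ Box, algebraMap A Ω (Pm μ i) •
      (fun k => algebraMap A Ω ((χ (blk i) k : A) * cm μ k) : J → Ω) := by
    intro i hi
    funext k
    rw [Finset.sum_apply]
    have e1 : ∀ j, y i j ^ l k j =
        ∑ r ∈ range (M j + 1), algebraMap A Ω (c (l k j) r * Nw r (t i j)) := by
      intro j
      rw [← ht i hi j, ← map_pow, hc (l k j) (t i j), map_sum]
      refine Finset.sum_subset (Finset.range_mono (by have := hl k j; omega)) fun r _ hr => ?_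
      rw [hc0 (l k j) r (by
        rw [Finset.mem_range] at hr
        omega), zero_mul, map_zero]
    have e2 : W i k = (χ (blk i) k : Ω) *
        ∏ j, ∑ r ∈ range (M j + 1), algebraMap A Ω (c (l k j) r * Nw r (t i j)) := by
      show (χ (blk i) k : Ω) * ∏ j, y i j ^ l k j = _
      rw [Finset.prod_congr rfl fun j _ => e1 j]
    rw [e2, Finset.prod_univ_sum, Finset.mul_sum]
    refine Finset.sum_congr rfl fun μ _ => ?_
    simp only [Pi.smul_apply, smul_eq_mul, cm, Pm, map_prod, map_mul, map_intCast]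
    rw [Finset.prod_mul_distrib]
    ring
  let Ai : J → Finset (Fin n → ℕ) := fun i => if i ∈ T then Box else {0}
  let s : (J → Fin n → ℕ) → J → Ω := fun r i =>
    if i ∈ T then algebraMap A Ω (Pm (r i) i) else 1
  let R : (J → Fin n → ℕ) → J → J → Ω := fun r i k =>
    if i ∈ T then algebraMap A Ω ((χ (blk i) k : A) * cm (r i) k) else W i k
  have hdet : (Matrix.of W).det =
      ∑ r ∈ Fintype.piFinset Ai, (∏ i, s r i) * (Matrix.of (R r)).det := by
    have e1 : W = fun i => ∑ μ ∈ Ai i, (fun k => (if i ∈ T then algebraMap A Ω (Pm μ i) else 1) *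
        (if i ∈ T then algebraMap A Ω ((χ (blk i) k : A) * cm μ k) else W i k) : J → Ω) := by
      funext i
      by_cases hi : i ∈ T
      · rw [hW i hi]
        simp only [Ai, if_pos hi]
        refine Finset.sum_congr rfl fun μ _ => ?_
        funext k
        simp
      · simp only [Ai, if_neg hi]
        rw [Finset.sum_singleton]
        funext k
        simp
    have e2 := (Matrix.detRowAlternating (R := Ω) (n := J)).toMultilinearMap.map_sum_finset
      (fun i μ => (fun k => (if i ∈ T then algebraMap A Ω (Pm μ i) else 1) *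
        (if i ∈ T then algebraMap A Ω ((χ (blk i) k : A) * cm μ k) else W i k) : J → Ω)) Ai
    have e3 : (Matrix.of W).det = (Matrix.detRowAlternating (R := Ω) (n := J)).toMultilinearMap
        (fun i => ∑ μ ∈ Ai i, (fun k => (if i ∈ T then algebraMap A Ω (Pm μ i) else 1) *
        (if i ∈ T then algebraMap A Ω ((χ (blk i) k : A) * cm μ k) else W i k) : J → Ω)) := by
      rw [← e1]
      rfl
    rw [e3, e2]
    refine Finset.sum_congr rfl fun r _ => ?_
    exact Matrix.det_mul_column (s r) (Matrix.of (R r))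
  have hterm : ∀ r : J → Fin n → ℕ, ∃ z : Ω, IsIntegral A z ∧
      (∏ j, a j ^ M j) * ((∏ i, s r i) * (Matrix.of (R r)).det) =
        algebraMap A Ω (π ^ E) * z := by
    intro r
    by_cases hr : ∀ i ∈ T, ∀ i' ∈ T, blk i = blk i' → r i = r i' → i = i'
    · have h1 : π ^ E ∣ ∏ i ∈ T, Pm (r i) i := by
        refine (pow_dvd_pow π (hE r hr)).trans ?_
        rw [← Finset.prod_pow_eq_pow_sum]
        refine Finset.prod_dvd_prod_of_dvd _ _ fun i _ => ?_
        rw [← Finset.prod_pow_eq_pow_sum]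
        exact Finset.prod_dvd_prod_of_dvd _ _ fun j _ => hv _ _
      obtain ⟨b, hb⟩ := h1
      have h2 : ∏ i, s r i = algebraMap A Ω (π ^ E * b) := by
        rw [← hb, map_prod, ← Finset.prod_subset (Finset.subset_univ T)]
        · refine Finset.prod_congr rfl fun i hi => ?_
          simp only [s, if_pos hi]
        · intro i _ hi
          simp only [s, if_neg hi]
      refine ⟨algebraMap A Ω b * ((∏ j, a j ^ M j) * (Matrix.of (R r)).det),
        isIntegral_algebraMap.mul (int_det hl hint (fun i k => χ (blk i) k) T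
          fun i k => (χ (blk i) k : A) * cm (r i) k), ?_⟩
      rw [h2, map_mul]
      ring
    · refine ⟨0, isIntegral_zero, ?_⟩
      have h1 : (Matrix.of (R r)).det = 0 := by
        push Not at hr
        obtain ⟨i, hi, i', hi', hb, hii, hne⟩ := hr
        refine Matrix.det_zero_of_row_eq hne ?_
        funext k
        simp [R, hi, hi', hii, hb]
      rw [h1]
      ring
  choose z hz1 hz2 using hterm
  refine ⟨∑ r ∈ Fintype.piFinset Ai, z r, IsIntegral.sum _ fun r _ => hz1 r, ?_⟩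
  have h3 : (Matrix.of fun i k : J => (χ (blk i) k : Ω) * ∏ j, y i j ^ l k j).det =
    (Matrix.of W).det := rfl
  rw [h3, hdet, Finset.mul_sum, Finset.mul_sum]
  exact Finset.sum_congr rfl fun r _ => hz2 r

end Pool.Agent.Q188.RV
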