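import Mathlib

/-!
# Reduction of the base field to a number field
-/

set_option autoImplicit false
set_option linter.unusedSectionVars false

open Finset Module

namespace Pool.Agent.Q188.RV

lemma adjoin_le_span {K Ω : Type} [Field K] [Field Ω] [Algebra K Ω] {n : ℕ} (x : Fin n → Ω)
    (halg : ∀ j, IsAlgebraic K (x j)) {ι : Type} (v : ι → Ω)
    (h1 : (1 : Ω) ∈ Submodule.span K (Set.range v))
    (hx : ∀ j i, x j * v i ∈ Submodule.span K (Set.range v)) :
    ∀ y ∈ IntermediateField.adjoin K (Set.range x), y ∈ Submodule.span K (Set.range v) := by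
  set V := Submodule.span K (Set.range v) with hV
  have hxV : ∀ j, ∀ w ∈ V, x j * w ∈ V := by
    intro j w hw
    induction hw using Submodule.span_induction with
    | mem w hw =>
      obtain ⟨i, rfl⟩ := hw
      exact hx j i
    | zero => rw [mul_zero]; exact V.zero_mem
    | add a b _ _ ha hb => rw [mul_add]; exact V.add_mem ha hb
    | smul c a _ ha =>
      rw [mul_smul_comm]
      exact V.smul_mem c ha
  have h2 : ∀ a ∈ Algebra.adjoin K (Set.range x), ∀ w ∈ V, a * w ∈ V := by
    intro a ha
    induction ha using Algebra.adjoin_induction with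
    | mem a ha =>
      obtain ⟨j, rfl⟩ := ha
      exact hxV j
    | algebraMap c =>
      intro w hw
      rw [← Algebra.smul_def]
      exact V.smul_mem c hw
    | add a b _ _ ha hb =>
      intro w hw
      rw [add_mul]
      exact V.add_mem (ha w hw) (hb w hw)
    | mul a b _ _ ha hb =>
      intro w hw
      rw [mul_assoc]
      exact ha _ (hb w hw)
  intro y hy
  have h3 : (IntermediateField.adjoin K (Set.range x)).toSubalgebra =
      Algebra.adjoin K (Set.range x) := by
    apply IntermediateField.adjoin_toSubalgebra_of_isAlgebraic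
    rintro _ ⟨j, rfl⟩
    exact halg j
  have h4 : y ∈ Algebra.adjoin K (Set.range x) := by
    rw [← h3]
    exact hy
  have h5 := h2 y h4 1 h1
  rwa [mul_one] at h5

lemma finrank_adjoin_le {K Ω : Type} [Field K] [Field Ω] [Algebra K Ω] {n : ℕ} (x : Fin n → Ω)
    (halg : ∀ j, IsAlgebraic K (x j)) {D : ℕ} (v : Fin D → Ω)
    (h1 : (1 : Ω) ∈ Submodule.span K (Set.range v))
    (hx : ∀ j i, x j * v i ∈ Submodule.span K (Set.range v)) :
    finrank K (IntermediateField.adjoin K (Set.range x)) ≤ D := by
  have h2 := adjoin_le_span x halg v h1 hx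
  have h3 : (IntermediateField.adjoin K (Set.range x)).toSubalgebra.toSubmodule ≤
      Submodule.span K (Set.range v) := h2
  have hfin : FiniteDimensional K (Submodule.span K (Set.range v)) :=
    FiniteDimensional.span_of_finite K (Set.finite_range v)
  have h4 := Submodule.finrank_mono h3
  refine le_trans h4 ?_
  have h5 := finrank_range_le_card (R := K) v
  rw [Fintype.card_fin] at h5
  exact h5

/-- a finite subfield over which the point has the same degree -/
theorem exists_k {Ω : Type} [Field Ω] [Algebra ℚ Ω] [Algebra.IsAlgebraic ℚ Ω]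
    (B : IntermediateField ℚ Ω) {n : ℕ} (x : Fin n → Ω) :
    ∃ k : IntermediateField ℚ Ω, k ≤ B ∧ FiniteDimensional ℚ k ∧
      finrank k (IntermediateField.adjoin k (Set.range x)) =
        finrank B (IntermediateField.adjoin B (Set.range x)) := by
  classical
  have hint : ∀ y : Ω, IsIntegral ℚ y := fun y => Algebra.IsIntegral.isIntegral y
  have hintK : ∀ (K : IntermediateField ℚ Ω) (y : Ω), IsIntegral K y := fun K y =>
    (hint y).tower_top
  have hfd : ∀ K : IntermediateField ℚ Ω,
      FiniteDimensional K (IntermediateField.adjoin K (Set.range x)) := fun K =>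
    IntermediateField.finiteDimensional_adjoin fun y _ => hintK K y
  have hB := hfd B
  set D := finrank B (IntermediateField.adjoin B (Set.range x)) with hD
  set b : Basis (Fin D) B (IntermediateField.adjoin B (Set.range x)) := finBasis B _ with hb
  let v : Fin D → Ω := fun i => (b i : Ω)
  let xx : Fin n → IntermediateField.adjoin B (Set.range x) := fun j =>
    ⟨x j, IntermediateField.subset_adjoin B _ ⟨j, rfl⟩⟩
  let c : Fin n → Fin D → Fin D → B := fun j i l => b.repr (xx j * b i) l
  let c0 : Fin D → B := fun l => b.repr 1 l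
  have hc : ∀ j i, x j * v i = ∑ l, (c j i l : Ω) * v l := by
    intro j i
    have h1 := b.sum_repr (xx j * b i)
    have h2 := congrArg (fun t : IntermediateField.adjoin B (Set.range x) => (t : Ω)) h1
    rw [show x j * v i = ((xx j * b i : IntermediateField.adjoin B (Set.range x)) : Ω) from rfl,
      ← h2, AddSubmonoidClass.coe_finsetSum]
    refine Finset.sum_congr rfl fun l _ => ?_
    rfl
  have hc0 : (1 : Ω) = ∑ l, (c0 l : Ω) * v l := by
    have h1 := b.sum_repr (1 : IntermediateField.adjoin B (Set.range x))
    have h2 := congrArg (fun t : IntermediateField.adjoin B (Set.range x) => (t : Ω)) h1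
    rw [show (1 : Ω) = ((1 : IntermediateField.adjoin B (Set.range x)) : Ω) from rfl,
      ← h2, AddSubmonoidClass.coe_finsetSum]
    refine Finset.sum_congr rfl fun l _ => ?_
    rfl
  let S : Set Ω := Set.range (fun t : Fin n × Fin D × Fin D => (c t.1 t.2.1 t.2.2 : Ω)) ∪
    Set.range (fun l => (c0 l : Ω))
  have hSfin : Finite S := ((Set.finite_range _).union (Set.finite_range _)).to_subtype
  set k := IntermediateField.adjoin ℚ S with hk
  have hkB : k ≤ B := by
    rw [hk, IntermediateField.adjoin_le_iff]
    rintro y (⟨t, rfl⟩ | ⟨l, rfl⟩)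
    · exact (c t.1 t.2.1 t.2.2).2
    · exact (c0 l).2
  have hkfd : FiniteDimensional ℚ k := IntermediateField.finiteDimensional_adjoin fun y _ => hint y
  refine ⟨k, hkB, hkfd, le_antisymm ?_ ?_⟩
  · refine finrank_adjoin_le x (fun j => (hintK k (x j)).isAlgebraic) v ?_ ?_
    · rw [hc0]
      refine Submodule.sum_mem _ fun l _ => ?_
      have hmem : (c0 l : Ω) ∈ k := IntermediateField.subset_adjoin ℚ S (Or.inr ⟨l, rfl⟩)
      have := Submodule.smul_mem (Submodule.span k (Set.range v)) (⟨_, hmem⟩ : k)
        (Submodule.subset_span ⟨l, rfl⟩)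
      exact this
    · intro j i
      rw [hc]
      refine Submodule.sum_mem _ fun l _ => ?_
      have hmem : (c j i l : Ω) ∈ k :=
        IntermediateField.subset_adjoin ℚ S (Or.inl ⟨(j, i, l), rfl⟩)
      have := Submodule.smul_mem (Submodule.span k (Set.range v)) (⟨_, hmem⟩ : k)
        (Submodule.subset_span ⟨l, rfl⟩)
      exact this
  · have hkk := hfd k
    set D' := finrank k (IntermediateField.adjoin k (Set.range x)) with hD'
    set b' : Basis (Fin D') k (IntermediateField.adjoin k (Set.range x)) := finBasis k _ with hb'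
    let v' : Fin D' → Ω := fun i => (b' i : Ω)
    have hspan : ∀ y : IntermediateField.adjoin k (Set.range x),
        (y : Ω) ∈ Submodule.span B (Set.range v') := by
      intro y
      have h1 := b'.sum_repr y
      have h2 := congrArg (fun t : IntermediateField.adjoin k (Set.range x) => (t : Ω)) h1
      rw [← h2, AddSubmonoidClass.coe_finsetSum]
      refine Submodule.sum_mem _ fun l _ => ?_
      have := Submodule.smul_mem (Submodule.span B (Set.range v'))
        (⟨((b'.repr y l : k) : Ω), hkB (b'.repr y l).2⟩ : B) (Submodule.subset_span ⟨l, rfl⟩)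
      exact this
    refine finrank_adjoin_le x (fun j => (hintK B (x j)).isAlgebraic) v' ?_ ?_
    · exact hspan 1
    · intro j i
      exact hspan (⟨x j, IntermediateField.subset_adjoin k _ ⟨j, rfl⟩⟩ * b' i)

end Pool.Agent.Q188.RV
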