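import Pool.Agent.Q188.RV.Det
import Pool.Agent.Q188.RV.Bas
import Pool.Agent.Q188.RV.Cnt

/-!
# The contribution of one local field, relative version
-/

set_option autoImplicit false
set_option linter.unusedSectionVars false

open Finset Polynomial Module ValuativeRel Pool.Agent.Y642.LZ

namespace Pool.Agent.Q188.RV

open Pool.Agent.Y642.ND (gain S_CNT S_EMB S_INT S_NEW)

/-- the integrality hypothesis of the determinant lemma -/
lemma int_all {Ω : Type} [Field Ω] [CharZero Ω] [IsAlgClosed Ω] (hE : S_EMB.{0})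
    (hI : S_INT.{0}) {F : Type} [Field F] [NumberField F] {x : F} {f : ℤ[X]}
    (hf : Irreducible f) (hx : aeval x f = 0) {m : ℕ} (hm : m * f.natDegree = finrank ℚ F)
    (S : Finset (F →+* Ω)) (M : ℕ) (l : (F →+* Ω) → ℕ) (hl : ∀ σ ∈ S, l σ ≤ M) :
    IsIntegral ℤ (((f.leadingCoeff : Ω) ^ m) ^ M * ∏ σ ∈ S, σ x ^ l σ) := by
  classical
  refine hI Ω (F →+* Ω) _ (fun σ => σ x) (fun i => ?_) S M l hl
  rw [← hE F Ω x f hf hx m hm, ← Polynomial.map_pow, coeff_map]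
  exact isIntegral_algebraMap

variable {k F : Type} [Field k] [NumberField k] [Field F] [NumberField F] [Algebra k F]

/-- the integer `r` -/
lemma exists_r (hEMB : S_EMB.{0}) (hINT : S_INT.{0}) {n : ℕ}
    {x : Fin n → F} {f : Fin n → ℤ[X]} (hf : ∀ j, Irreducible (f j))
    (hx : ∀ j, aeval (x j) (f j) = 0) {m M : Fin n → ℕ}
    (hm : ∀ j, m j * (f j).natDegree = finrank ℚ F)
    {l : Fin (finrank k F) → Fin n → ℕ} (hl : ∀ c j, l c j ≤ M j) {d : ℚ}
    (hd : ∀ (Ω : Type) [Field Ω] [CharZero Ω] [IsAlgClosed Ω] [Fintype (k →+* Ω)]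
        (ε : ∀ τ : k →+* Ω, Fin (finrank k F) ≃ Over (F := F) k τ),
        (d : Ω) = (∏ τ, (wblk x l τ (ε τ)).det) ^ 2) :
    ∃ r : ℤ, (r : ℚ) = (∏ j, (((f j).leadingCoeff : ℚ) ^ m j) ^ M j) ^ 2 * d := by
  classical
  let ε : ∀ τ : k →+* ℂ, Fin (finrank k F) ≃ Over (F := F) k τ := fun τ =>
    (exists_enum (F := F) τ).some
  have h1 := int_det (A := ℤ) (Ω := ℂ) (J := F →+* ℂ) (y := fun σ j => σ (x j))
    (l := fun σ' => l ((allEquiv ε).symm σ').1) (M := M)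
    (a := fun j => ((f j).leadingCoeff : ℂ) ^ m j) (fun σ' j => hl _ j)
    (fun j S l' hl' => int_all hEMB hINT (hf j) (hx j) (hm j) S (M j) l' hl')
    (fun σ σ' => chi (σ.comp (algebraMap k F)) σ') ∅ (fun _ _ => 0)
  simp only [Finset.notMem_empty, if_false] at h1
  have h2 : (Matrix.of fun σ σ' : F →+* ℂ => (chi (σ.comp (algebraMap k F)) σ' : ℂ) *
      ∏ j, σ (x j) ^ l ((allEquiv ε).symm σ').1 j) = wall x l ε := rfl
  rw [h2, wall_det] at h1
  set y : ℚ := (∏ j, (((f j).leadingCoeff : ℚ) ^ m j) ^ M j) ^ 2 * d with hy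
  have h3 : algebraMap ℚ ℂ y = ((∏ j, (((f j).leadingCoeff : ℂ) ^ m j) ^ M j) *
      ∏ τ, (wblk x l τ (ε τ)).det) ^ 2 := by
    rw [hy, map_mul, map_pow, map_prod, eq_ratCast (algebraMap ℚ ℂ) d, hd ℂ ε, mul_pow]
    congr 2
    refine Finset.prod_congr rfl fun j _ => ?_
    rw [map_pow, map_pow, map_intCast]
  have h4 : IsIntegral ℤ y := by
    have h5 : IsIntegral ℤ (algebraMap ℚ ℂ y) := by
      rw [h3]
      exact h1.pow 2
    exact (isIntegral_algebraMap_iff (algebraMap ℚ ℂ).injective).mp h5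
  obtain ⟨r, hr⟩ := IsIntegrallyClosed.isIntegral_iff.mp h4
  exact ⟨r, by simpa using hr⟩

open Classical in
/-- the number of the embeddings in `T` that extend `τ` -/
noncomputable def fib {k F Ω : Type} [Field k] [Field F] [Algebra k F] [Field Ω]
    (T : Finset (F →+* Ω)) (τ : k →+* Ω) : ℕ :=
  (T.filter fun σ => σ.comp (algebraMap k F) = τ).card

/-- the moment of order `1 + 1 / n` of the numbers of the embeddings in `T` that extend a given
embedding of `k` -/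
noncomputable def mom (k : Type) {F Ω : Type} [Field k] [Field F] [Algebra k F] [Field Ω] (n : ℕ)
    (T : Finset (F →+* Ω)) : ℝ :=
  ∑ σ ∈ T, (fib T (σ.comp (algebraMap k F)) : ℝ) ^ (1 / (n : ℝ))

lemma mom_eq {k F Ω : Type} [Field k] [Field F] [Algebra k F] [Field Ω] [Fintype (k →+* Ω)]
    {n : ℕ} (hn : 1 ≤ n) (T : Finset (F →+* Ω)) :
    mom k n T = ∑ τ : k →+* Ω, (fib T τ : ℝ) ^ (1 + 1 / (n : ℝ)) := by
  classical
  have hn0 : (0 : ℝ) < n := by exact_mod_cast hn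
  unfold mom
  rw [← Finset.sum_fiberwise T (fun σ => σ.comp (algebraMap k F))]
  refine Finset.sum_congr rfl fun τ _ => ?_
  have h1 : ∀ σ ∈ T.filter (fun σ => σ.comp (algebraMap k F) = τ),
      (fib T (σ.comp (algebraMap k F)) : ℝ) ^ (1 / (n : ℝ)) =
        (fib T τ : ℝ) ^ (1 / (n : ℝ)) := by
    intro σ hσ
    rw [(Finset.mem_filter.mp hσ).2]
  rw [Finset.sum_congr rfl h1, Finset.sum_const, nsmul_eq_mul,
    Real.rpow_one_add' (Nat.cast_nonneg _) (by positivity)]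
  congr 1

lemma fib_sum {k F Ω : Type} [Field k] [Field F] [Algebra k F] [Field Ω] [Fintype (k →+* Ω)]
    (T : Finset (F →+* Ω)) : ∑ τ : k →+* Ω, (fib T τ : ℝ) = T.card := by
  classical
  have h0 := Finset.card_eq_sum_card_fiberwise (f := fun σ => σ.comp (algebraMap k F)) (s := T)
    (t := Finset.univ) (fun i _ => Finset.mem_coe.mpr (Finset.mem_univ _))
  rw [h0]
  push_cast
  refine Finset.sum_congr rfl fun τ _ => ?_
  unfold fib
  congr 2

/-- the moment is at least what it is if all the numbers are equal -/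
lemma mom_ge {Ω : Type} [Field Ω] [CharZero Ω] [IsAlgClosed Ω] {n : ℕ} (hn : 1 ≤ n)
    (T : Finset (F →+* Ω)) :
    (finrank ℚ k : ℝ) * ((T.card : ℝ) / finrank ℚ k) ^ (1 + 1 / (n : ℝ)) ≤ mom k n T := by
  have hcard : Fintype.card (k →+* Ω) = finrank ℚ k := NumberField.Embeddings.card k Ω
  have hne : Nonempty (k →+* Ω) := by
    rw [← Fintype.card_pos_iff, hcard]
    exact finrank_pos
  have h1 := conv hn (fun τ : k →+* Ω => (fib T τ : ℝ)) (fun τ => Nat.cast_nonneg _)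
  rw [fib_sum, hcard] at h1
  rw [mom_eq hn]
  exact h1

lemma locl (P : Place.{0}) (hEMB : S_EMB.{0}) (hNEW : S_NEW.{0}) (hINT : S_INT.{0})
    (hCNT : S_CNT) {n : ℕ} (hn : 1 ≤ n)
    {x : Fin n → F} {f : Fin n → ℤ[X]} (hf : ∀ j, Irreducible (f j))
    (hx : ∀ j, aeval (x j) (f j) = 0) {m M : Fin n → ℕ}
    (hm : ∀ j, m j * (f j).natDegree = finrank ℚ F)
    {l : Fin (finrank k F) → Fin n → ℕ} (hl : ∀ c j, l c j ≤ M j) {d : ℚ}
    (hd : ∀ (Ω : Type) [Field Ω] [CharZero Ω] [IsAlgClosed Ω] [Fintype (k →+* Ω)]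
        (ε : ∀ τ : k →+* Ω, Fin (finrank k F) ≃ Over (F := F) k τ),
        (d : Ω) = (∏ τ, (wblk x l τ (ε τ)).det) ^ 2)
    {r : ℤ} (hr : (r : ℚ) = (∏ j, (((f j).leadingCoeff : ℚ) ^ m j) ^ M j) ^ 2 * d)
    (T : Finset (F →+* AlgebraicClosure P.K))
    (hT : ∀ σ ∈ T, ∀ j, ∃ z : 𝒪[P.K], algebraMap 𝒪[P.K] (AlgebraicClosure P.K) z = σ (x j)) :
    ∃ E : ℕ, (n : ℝ) / (n + 1) * mom k n T - (n * ((P.q : ℝ) - 1) + 2) * T.card ≤ P.q * E ∧
      unif P.K ^ (2 * E) ∣ (r : 𝒪[P.K]) := by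
  classical
  obtain ⟨π, hπ⟩ : ∃ π : 𝒪[P.K], π = unif P.K := ⟨_, rfl⟩
  rw [← hπ]
  have hchar : CharZero (AlgebraicClosure P.K) :=
    charZero_of_injective_algebraMap (algebraMap P.K (AlgebraicClosure P.K)).injective
  set Ω := AlgebraicClosure P.K with hΩ
  let ε : ∀ τ : k →+* Ω, Fin (finrank k F) ≃ Over (F := F) k τ := fun τ =>
    (exists_enum (F := F) τ).some
  have hex : ∀ σ ∈ T, ∀ j, ∃ z : 𝒪[P.K], algebraMap 𝒪[P.K] Ω z = σ (x j) := hT
  let t : (F →+* Ω) → Fin n → 𝒪[P.K] := fun σ j =>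
    if h : ∃ z : 𝒪[P.K], algebraMap 𝒪[P.K] Ω z = σ (x j) then h.choose else 0
  have ht : ∀ σ ∈ T, ∀ j, algebraMap 𝒪[P.K] Ω (t σ j) = σ (x j) := by
    intro σ hσ j
    have h := hex σ hσ j
    simp only [t, dif_pos h]
    exact h.choose_spec
  have hq : 1 ≤ P.q := by
    have := P.toLoc.two_le_q
    rw [Place.toLoc_q] at this
    omega
  have hfin0 : Fintype (k →+* Ω) := inferInstance
  obtain ⟨E, hE1, hE2⟩ := exists_E2 hCNT hn hq T (fun σ => σ.comp (algebraMap k F))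
  refine ⟨E, ?_, ?_⟩
  · have h0 : ∀ τ, ((T.filter fun σ => σ.comp (algebraMap k F) = τ).card : ℝ) = fib T τ := by
      intro τ
      unfold fib
      congr 2
    simp only [h0] at hE1
    refine le_trans (le_of_eq ?_) hE1
    unfold gain
    rw [Finset.sum_sub_distrib, ← Finset.mul_sum, ← Finset.mul_sum, fib_sum, mom_eq hn]
  have : Finite (𝒪[P.K] ⧸ Ideal.span {π}) := by rw [hπ]; exact P.toLoc.fin
  obtain ⟨v, cc, hv, hcc, hcc0⟩ := hNEW 𝒪[P.K] π
  have hqq : Nat.card (𝒪[P.K] ⧸ Ideal.span {π}) = P.q := by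
    rw [← Place.toLoc_q, hπ]; rfl
  rw [hqq] at hv
  obtain ⟨z, hz, hzd⟩ := det_blk (A := 𝒪[P.K]) (Ω := Ω) (J := F →+* Ω)
    (y := fun σ j => σ (x j)) (l := fun σ' => l ((allEquiv ε).symm σ').1) (M := M)
    (a := fun j => ((f j).leadingCoeff : Ω) ^ m j) (fun σ' j => hl _ j)
    (fun j S l' hl' => int_all hEMB hINT (hf j) (hx j) (hm j) S (M j) l' hl')
    (fun σ => σ.comp (algebraMap k F)) chi hv hcc hcc0 ht hE2
  have h2 : (Matrix.of fun σ σ' : F →+* Ω => (chi (σ.comp (algebraMap k F)) σ' : Ω) *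
      ∏ j, σ (x j) ^ l ((allEquiv ε).symm σ').1 j) = wall x l ε := rfl
  rw [h2, wall_det] at hzd
  -- the square
  have hsq : ((r : ℤ) : Ω) = algebraMap 𝒪[P.K] Ω (π ^ (2 * E)) * z ^ 2 := by
    have h1 : ((r : ℤ) : Ω) = (((r : ℚ)) : Ω) := by push_cast; rfl
    have h2 : (((∏ j, (((f j).leadingCoeff : ℚ) ^ m j) ^ M j) ^ 2 * d : ℚ) : Ω) =
        (∏ j, (((f j).leadingCoeff : Ω) ^ m j) ^ M j) ^ 2 * (d : Ω) := by push_cast; rfl
    rw [h1, hr, h2, hd Ω ε, ← mul_pow, hzd, mul_pow, ← map_pow, ← pow_mul, mul_comm E 2]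
  have hπ0 : π ≠ 0 := by
    intro h0
    have h1 : Associated ((P.p : ℕ) : 𝒪[P.K]) (unif P.K ^ P.e) := P.toLoc.assoc
    rw [← hπ, h0, zero_pow (by have := P.he; omega)] at h1
    have h2 : ((P.p : ℕ) : 𝒪[P.K]) = 0 := (associated_zero_iff_eq_zero _).mp h1
    have h3 : P.p = 0 := by exact_mod_cast h2
    exact P.hp.ne_zero h3
  have hπK : (π : P.K) ^ (2 * E) ≠ 0 := by
    refine pow_ne_zero _ ?_
    intro h0
    exact hπ0 (Subtype.ext h0)
  set w : P.K := (r : P.K) / (π : P.K) ^ (2 * E) with hw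
  have hwz : algebraMap P.K Ω w = z ^ 2 := by
    rw [hw, map_div₀, map_intCast, hsq]
    have h1 : algebraMap 𝒪[P.K] Ω (π ^ (2 * E)) =
        algebraMap P.K Ω ((π : P.K) ^ (2 * E)) := by
      rw [IsScalarTower.algebraMap_apply 𝒪[P.K] P.K Ω]
      rfl
    rw [h1]
    have h2 : algebraMap P.K Ω ((π : P.K) ^ (2 * E)) ≠ 0 := by
      rw [Ne, map_eq_zero]
      exact hπK
    rw [mul_div_assoc, mul_comm, div_mul_cancel₀ _ h2]
  have hwi : IsIntegral 𝒪[P.K] w := by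
    have h1 : IsIntegral 𝒪[P.K] (algebraMap P.K Ω w) := by
      rw [hwz]
      exact hz.pow 2
    exact (isIntegral_algebraMap_iff (algebraMap P.K Ω).injective).mp h1
  have hwm : w ∈ 𝒪[P.K] := (Valuation.integer.integers (valuation P.K)).mem_of_integral hwi
  refine ⟨⟨w, hwm⟩, ?_⟩
  apply Subtype.ext
  change ((r : 𝒪[P.K]) : P.K) = ((π ^ (2 * E) : 𝒪[P.K]) : P.K) * w
  have h1 : ((r : 𝒪[P.K]) : P.K) = (r : P.K) := by
    exact map_intCast (𝒪[P.K]).subtype r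
  have h2 : ((π ^ (2 * E) : 𝒪[P.K]) : P.K) = (π : P.K) ^ (2 * E) := rfl
  rw [h1, h2, hw, mul_comm, div_mul_cancel₀ _ hπK]

end Pool.Agent.Q188.RV
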