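import Pool.Agent.Q188.RV.Top

/-!
# The inequality for one number
-/

set_option autoImplicit false
set_option linter.unusedSectionVars false

open Finset Polynomial Module NumberField ValuativeRel Pool.Agent.Y642.LZ

universe v

namespace Pool.Agent.Q188.RV

open Pool.Agent.Y642.ND (gain wh wh_nonneg mah inv_dvd)

/-- embeddings at which `x` is in the local field, but not integral -/
lemma nonint_val (P : Place.{0})
    {F : Type} [Field F] [NumberField F] {x : F} {f : ℤ[X]} (hf : Irreducible f)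
    (hx : aeval x f = 0) {m : ℕ} (hm : m * f.natDegree = finrank ℚ F)
    (S : Finset (F →+* AlgebraicClosure P.K)) (hS : ∀ σ ∈ S, ∃ y : P.K, y ∉ 𝒪[P.K] ∧
      algebraMap P.K (AlgebraicClosure P.K) y = σ x) :
    S.card ≤ P.e * padicValInt P.p (f.leadingCoeff ^ m) := by
  classical
  have hchar : CharZero (AlgebraicClosure P.K) :=
    charZero_of_injective_algebraMap (algebraMap P.K (AlgebraicClosure P.K)).injective
  set Ω := AlgebraicClosure P.K with hΩ
  choose! y hy1 hy2 using hS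
  have h1 := int_all (Ω := Ω) Pool.Agent.Y412.ND.t Pool.Agent.Y730.ND.Int.t hf hx hm S 1
    (fun _ => 1) (fun _ _ => le_rfl)
  simp only [pow_one] at h1
  have h2 : ((f.leadingCoeff : Ω) ^ m) * ∏ τ ∈ S, τ x =
      algebraMap P.K Ω ((f.leadingCoeff : P.K) ^ m * ∏ τ ∈ S, y τ) := by
    rw [map_mul, map_pow, map_intCast, map_prod]
    congr 1
    refine Finset.prod_congr rfl fun τ hτ => ?_
    exact (hy2 τ hτ).symm
  rw [h2] at h1
  have h3 : IsIntegral 𝒪[P.K] ((f.leadingCoeff : P.K) ^ m * ∏ τ ∈ S, y τ) :=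
    ((isIntegral_algebraMap_iff (algebraMap P.K Ω).injective).mp h1).tower_top
  have h4 := (Valuation.integer.integers (valuation P.K)).mem_of_integral h3
  choose! w hw using fun τ (hτ : τ ∈ S) => inv_dvd (hy1 τ hτ)
  have hlc0 : f.leadingCoeff ≠ 0 := leadingCoeff_ne_zero.mpr hf.ne_zero
  have h5 : unif P.K ^ S.card ∣ (((f.leadingCoeff ^ m : ℤ)) : 𝒪[P.K]) := by
    refine ⟨(∏ τ ∈ S, w τ) * ⟨_, h4⟩, ?_⟩
    apply Subtype.ext
    have h6 : (((f.leadingCoeff ^ m : ℤ) : 𝒪[P.K]) : P.K) = (f.leadingCoeff : P.K) ^ m := by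
      rw [← Int.cast_pow]
      exact map_intCast (𝒪[P.K]).subtype _
    rw [h6]
    have h7 : ((unif P.K ^ S.card * ((∏ τ ∈ S, w τ) * ⟨_, h4⟩) : 𝒪[P.K]) : P.K) =
        (∏ τ ∈ S, ((unif P.K * w τ : 𝒪[P.K]) : P.K)) *
          ((f.leadingCoeff : P.K) ^ m * ∏ τ ∈ S, y τ) := by
      have h8 : (∏ τ ∈ S, ((unif P.K * w τ : 𝒪[P.K]) : P.K)) =
          (((∏ τ ∈ S, (unif P.K * w τ)) : 𝒪[P.K]) : P.K) := by
        rw [show (((∏ τ ∈ S, (unif P.K * w τ)) : 𝒪[P.K]) : P.K) =
          (𝒪[P.K]).subtype (∏ τ ∈ S, (unif P.K * w τ)) from rfl, map_prod]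
        rfl
      rw [h8, Finset.prod_mul_distrib, Finset.prod_const, ← mul_assoc]
      rfl
    rw [h7, Finset.prod_congr rfl fun τ hτ => (hw τ hτ).symm]
    have h9 : (∏ τ ∈ S, (y τ)⁻¹) * ∏ τ ∈ S, y τ = 1 := by
      rw [← Finset.prod_mul_distrib]
      refine Finset.prod_eq_one fun τ hτ => ?_
      refine inv_mul_cancel₀ ?_
      intro h0
      apply hy1 τ hτ
      rw [h0]
      exact Subring.zero_mem _
    calc (f.leadingCoeff : P.K) ^ m = ((∏ τ ∈ S, (y τ)⁻¹) * ∏ τ ∈ S, y τ) *
          (f.leadingCoeff : P.K) ^ m := by rw [h9, one_mul]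
      _ = _ := by ring
  exact val_le P.toLoc.notUnit P.hp P.he P.toLoc.assoc (pow_ne_zero m hlc0) h5

lemma nonint {F : Type} [Field F] [NumberField F] {x : F} {f : ℤ[X]} (hf : Irreducible f)
    (hx : aeval x f = 0)
    {ι : Type v} (s : Finset ι) (P : ι → Place.{0}) (hinj : Set.InjOn (fun i => (P i).p) s)
    (S : (i : ι) → Finset (F →+* AlgebraicClosure (P i).K))
    (hS : ∀ i ∈ s, ∀ σ ∈ S i, ∃ y : (P i).K, y ∉ 𝒪[(P i).K] ∧
      algebraMap (P i).K (AlgebraicClosure (P i).K) y = σ x) :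
    ∑ i ∈ s, ((S i).card : ℝ) * (Real.log (P i).p / (P i).e) ≤ (finrank ℚ F : ℝ) * wh f := by
  obtain ⟨m, hm⟩ := Pool.Agent.Y756.ND.deg F x f hf hx
  have hlc0 : f.leadingCoeff ≠ 0 := leadingCoeff_ne_zero.mpr hf.ne_zero
  have h7 := log_ge s (fun i => (P i).p) (fun i _ => (P i).hp) hinj (pow_ne_zero m hlc0)
  have h8 := mah Pool.Agent.Y412.ND.t hf hx hm
  have h9 : 0 ≤ ∑ σ : F →+* ℂ, Real.log (max 1 ‖σ x‖) :=
    Finset.sum_nonneg fun σ _ => Real.log_nonneg (le_max_left _ _)
  have h10 : Real.log |((f.leadingCoeff ^ m : ℤ) : ℝ)| =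
      (m : ℝ) * Real.log |(f.leadingCoeff : ℝ)| := by
    rw [Int.cast_pow, abs_pow, Real.log_pow]
  rw [h10] at h7
  have h12 : ∑ i ∈ s, ((S i).card : ℝ) * (Real.log (P i).p / (P i).e) ≤
      ∑ i ∈ s, (padicValInt (P i).p (f.leadingCoeff ^ m) : ℝ) * Real.log (P i).p := by
    refine Finset.sum_le_sum fun i hi => ?_
    have h6 := nonint_val (P i) hf hx hm (S i) (hS i hi)
    have he0 : (0 : ℝ) < (P i).e := by exact_mod_cast (P i).he
    have hlog0 : 0 ≤ Real.log (P i).p := Real.log_natCast_nonneg _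
    have h11 : ((S i).card : ℝ) ≤ (P i).e * padicValInt (P i).p (f.leadingCoeff ^ m) := by
      exact_mod_cast h6
    refine (mul_le_mul_of_nonneg_right h11 (by positivity)).trans (le_of_eq ?_)
    field_simp
  linarith

variable {k F : Type} [Field k] [NumberField k] [Field F] [NumberField F] [Algebra k F]

/-- the sum of the squares -/
noncomputable def sq {Ω : Type} [Field Ω] [Fintype (k →+* Ω)] (T : Finset (F →+* Ω)) : ℝ :=
  ∑ τ : k →+* Ω, (fib T τ : ℝ) ^ 2

lemma mom_one {Ω : Type} [Field Ω] [Fintype (k →+* Ω)] (T : Finset (F →+* Ω)) :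
    mom k 1 T = sq (k := k) T := by
  rw [mom_eq le_rfl]
  unfold sq
  refine Finset.sum_congr rfl fun τ _ => ?_
  have : (1 + 1 / ((1 : ℕ) : ℝ)) = ((2 : ℕ) : ℝ) := by norm_num
  rw [this, Real.rpow_natCast]

lemma fib_le {Ω : Type} [Field Ω] [CharZero Ω] [IsAlgClosed Ω] (T : Finset (F →+* Ω))
    (τ : k →+* Ω) : fib T τ ≤ finrank k F := by
  classical
  rw [← over_card (F := F) τ]
  unfold fib
  have hfin : Finite (Over (F := F) k τ) := by
    have hpos : 0 < finrank k F := by
      have : Module.Finite k F := Module.Finite.of_restrictScalars_finite ℚ k F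
      exact finrank_pos
    exact Nat.finite_of_card_ne_zero (by rw [over_card]; exact hpos.ne')
  have h1 : Nat.card {σ // σ ∈ (T.filter fun σ => σ.comp (algebraMap k F) = τ)} ≤
      Nat.card (Over (F := F) k τ) := by
    refine Nat.card_le_card_of_injective
      (fun σ => (⟨σ.1, (Finset.mem_filter.mp σ.2).2⟩ : Over (F := F) k τ)) ?_
    intro σ σ' h
    exact Subtype.ext (congrArg (fun t : Over (F := F) k τ => t.1) h)
  rw [Nat.card_eq_fintype_card, Fintype.card_coe] at h1
  convert h1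

lemma sq_split {Ω : Type} [Field Ω] [CharZero Ω] [IsAlgClosed Ω] [DecidableEq (F →+* Ω)]
    (T : Finset (F →+* Ω)) (p : (F →+* Ω) → Prop) [DecidablePred p] :
    sq (k := k) T ≤ 2 * sq (k := k) (T.filter p) +
      2 * ((finrank k F : ℝ) * (T.filter fun σ => ¬ p σ).card) := by
  classical
  have h1 : ∀ τ : k →+* Ω, (fib T τ : ℝ) = fib (T.filter p) τ + fib (T.filter fun σ => ¬ p σ) τ := by
    intro τ
    unfold fib
    rw [Finset.filter_filter, Finset.filter_filter]
    have h2 := Finset.card_filter_add_card_filter_not (s := T.filter fun σ =>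
      σ.comp (algebraMap k F) = τ) p
    rw [Finset.filter_filter, Finset.filter_filter] at h2
    rw [← Nat.cast_add, Nat.cast_inj]
    simp only [and_comm (a := p _), and_comm (a := ¬ p _)]
    convert h2.symm
  have h3 : ∀ τ : k →+* Ω, (fib T τ : ℝ) ^ 2 ≤ 2 * (fib (T.filter p) τ : ℝ) ^ 2 +
      2 * ((finrank k F : ℝ) * fib (T.filter fun σ => ¬ p σ) τ) := by
    intro τ
    rw [h1 τ]
    have h4 : (fib (T.filter fun σ => ¬ p σ) τ : ℝ) ≤ finrank k F := by
      exact_mod_cast fib_le (T.filter fun σ => ¬ p σ) τ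
    have h5 : (0 : ℝ) ≤ fib (T.filter fun σ => ¬ p σ) τ := Nat.cast_nonneg _
    have h6 : (fib (T.filter fun σ => ¬ p σ) τ : ℝ) ^ 2 ≤
        (finrank k F : ℝ) * fib (T.filter fun σ => ¬ p σ) τ := by
      rw [pow_two]
      exact mul_le_mul_of_nonneg_right h4 h5
    nlinarith [sq_nonneg ((fib (T.filter p) τ : ℝ) - fib (T.filter fun σ => ¬ p σ) τ)]
  unfold sq
  refine (Finset.sum_le_sum fun τ _ => h3 τ).trans (le_of_eq ?_)
  rw [Finset.sum_add_distrib, ← Finset.mul_sum, ← Finset.mul_sum, ← Finset.mul_sum, fib_sum]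

/-- the inequality for one number, in terms of sets of embeddings -/
theorem one_F {x : F} (hgen : Algebra.adjoin k {x} = ⊤) {f : ℤ[X]} (hf : Irreducible f)
    (hx : aeval x f = 0)
    {ι : Type v} (s : Finset ι) (P : ι → Place.{0}) (hinj : Set.InjOn (fun i => (P i).p) s)
    (T : (i : ι) → Finset (F →+* AlgebraicClosure (P i).K))
    (hT : ∀ i ∈ s, ∀ σ ∈ T i, ∃ y : (P i).K,
      algebraMap (P i).K (AlgebraicClosure (P i).K) y = σ x)
    (T0 : Finset (F →+* ℂ)) (hT0 : ∀ σ ∈ T0, (((σ x).re : ℝ) : ℂ) = σ x) {D : ℝ}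
    (hD : D = finrank k F) :
    ∑ i ∈ s, Real.log (P i).p / ((P i).e * (P i).q) *
        (mom k 1 (T i) / finrank ℚ k - 4 * ((P i).q + 1) * ((T i).card / finrank ℚ k)) +
      mom k 1 T0 / finrank ℚ k / (12 * Real.log (2 * D + 2)) ≤
      2 * (D * Real.log D) + 14 * (T0.card / finrank ℚ k) + 9 * D ^ 2 * wh f := by
  classical
  have hkpos : (0 : ℝ) < finrank ℚ k := by exact_mod_cast (finrank_pos : 0 < finrank ℚ k)
  have hDpos : (0 : ℝ) < D := by
    have hfinm : Module.Finite k F := Module.Finite.of_restrictScalars_finite ℚ k F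
    rw [hD]
    exact_mod_cast (finrank_pos : 0 < finrank k F)
  have hchar : ∀ i, CharZero (AlgebraicClosure (P i).K) := fun i =>
    charZero_of_injective_algebraMap (algebraMap (P i).K (AlgebraicClosure (P i).K)).injective
  let p : (i : ι) → (F →+* AlgebraicClosure (P i).K) → Prop := fun i σ =>
    ∃ z : 𝒪[(P i).K], algebraMap 𝒪[(P i).K] (AlgebraicClosure (P i).K) z = σ x
  have h1 := blk_two (k := k) (F := F) (n := 1) le_rfl (x := fun _ => x) (f := fun _ => f)
    (fun _ => hf) (fun _ => hx) (by rw [Set.range_const]; exact hgen) (δ := 1) le_rfl (by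
      intro G hG hdeg
      have h2 : G = MvPolynomial.C (G.coeff 0) := by
        ext m
        rw [MvPolynomial.coeff_C]
        split_ifs with h3
        · rw [← h3]
        · by_contra h4
          have h5 : m 0 ≤ G.degreeOf 0 :=
            MvPolynomial.monomial_le_degreeOf 0 (MvPolynomial.mem_support_iff.mpr h4)
          have h6 := hdeg 0
          apply h3
          ext
          simp only [Finsupp.coe_zero, Pi.zero_apply]
          have h8 : m default = m 0 := congrArg m (Subsingleton.elim _ _)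
          omega
      rw [h2, MvPolynomial.aeval_C]
      rw [Ne, map_eq_zero]
      intro h3
      apply hG
      rw [h2, h3, map_zero]) s P hinj (fun i => (T i).filter (p i))
    (fun i _ σ hσ _ => (Finset.mem_filter.mp hσ).2) T0 (fun σ hσ _ => hT0 σ hσ) hD
  have h2 := nonint hf hx s P hinj (fun i => (T i).filter fun σ => ¬ p i σ) (by
    intro i hi σ hσ
    obtain ⟨h3, h4⟩ := Finset.mem_filter.mp hσ
    obtain ⟨y, hy⟩ := hT i hi σ h3
    refine ⟨y, fun hy2 => h4 ⟨⟨y, hy2⟩, ?_⟩, hy⟩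
    rw [← hy]
    rfl)
  simp only [mom_one]
  simp only [mom_one] at h1
  rw [Finset.univ_unique, Finset.sum_singleton] at h1
  simp only [Nat.cast_one, Nat.sub_self, pow_zero, div_one] at h1
  set H := wh f with hH
  have hH0 : 0 ≤ H := wh_nonneg hf.ne_zero
  have hFk : (finrank ℚ F : ℝ) = finrank ℚ k * D := by
    rw [hD]
    exact_mod_cast (Module.finrank_mul_finrank ℚ k F).symm
  rw [hFk] at h2
  -- the pieces
  set c : ι → ℝ := fun i => Real.log (P i).p / ((P i).e * (P i).q) with hc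
  have hlogp : ∀ i, 0 ≤ Real.log (P i).p := fun i => Real.log_natCast_nonneg _
  have hq2 : ∀ i, (2 : ℝ) ≤ (P i).q := fun i => by
    have := (P i).toLoc.two_le_q
    rw [Place.toLoc_q] at this
    exact_mod_cast this
  have he1 : ∀ i, (1 : ℝ) ≤ (P i).e := fun i => by exact_mod_cast (P i).he
  have hc0 : ∀ i, 0 ≤ c i := fun i => by
    have h1 := hlogp i
    have h2 := hq2 i
    have h3 := he1 i
    simp only [hc]
    positivity
  set m0 : ℝ := (finrank ℚ k : ℝ) with hm0
  have key : ∀ i ∈ s, c i * (sq (k := k) (T i) / m0 - 4 * ((P i).q + 1) * ((T i).card / m0)) ≤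
      2 * (2 * Real.log (P i).p / ((P i).e * (P i).q) *
        (1 / (1 + 1) * (sq (k := k) ((T i).filter (p i)) / m0) -
          (1 * (((P i).q : ℝ) - 1) + 2) * (((T i).filter (p i)).card / m0))) +
      D / m0 * ((((T i).filter fun σ => ¬ p i σ).card : ℝ) * (Real.log (P i).p / (P i).e)) := by
    intro i _
    have h3 := sq_split (k := k) (T i) (p i)
    rw [← hD] at h3
    have h4 : (((T i).filter (p i)).card : ℝ) ≤ (T i).card := by
      exact_mod_cast Finset.card_filter_le _ _
    have h5 := hq2 i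
    have h6 := hlogp i
    have h7 := he1 i
    have h8 : c i * (sq (k := k) (T i) / m0) ≤
        c i * ((2 * sq (k := k) ((T i).filter (p i)) +
          2 * (D * (((T i).filter fun σ => ¬ p i σ).card : ℝ))) / m0) :=
      mul_le_mul_of_nonneg_left (div_le_div_of_nonneg_right h3 hkpos.le) (hc0 i)
    have h9 : c i * (2 * (D * (((T i).filter fun σ => ¬ p i σ).card : ℝ)) / m0) ≤
        D / m0 * ((((T i).filter fun σ => ¬ p i σ).card : ℝ) * (Real.log (P i).p / (P i).e)) := by
      have h10 : c i * 2 ≤ Real.log (P i).p / (P i).e := by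
        simp only [hc]
        rw [div_mul_eq_mul_div, div_le_div_iff₀ (by positivity) (by positivity)]
        nlinarith [mul_nonneg (mul_nonneg h6 (by linarith : (0 : ℝ) ≤ (P i).e))
          (by linarith : (0 : ℝ) ≤ (P i).q - 2)]
      have h11 : (0 : ℝ) ≤ D / m0 * (((T i).filter fun σ => ¬ p i σ).card : ℝ) := by positivity
      have h12 := mul_le_mul_of_nonneg_left h10 h11
      calc c i * (2 * (D * (((T i).filter fun σ => ¬ p i σ).card : ℝ)) / m0) =
          D / m0 * (((T i).filter fun σ => ¬ p i σ).card : ℝ) * (c i * 2) := by ring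
        _ ≤ _ := h12
        _ = _ := by ring
    have h13 : c i * (4 * ((P i).q + 1) * (((T i).filter (p i)).card / m0)) ≤
        c i * (4 * ((P i).q + 1) * ((T i).card / m0)) := by
      refine mul_le_mul_of_nonneg_left ?_ (hc0 i)
      refine mul_le_mul_of_nonneg_left ?_ (by positivity)
      exact div_le_div_of_nonneg_right h4 hkpos.le
    have h14 : 2 * Real.log (P i).p / ((P i).e * (P i).q) = 2 * c i := by
      simp only [hc]
      ring
    rw [h14]
    rw [add_div, mul_add] at h8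
    have h15 : 2 * (2 * c i * (1 / (1 + 1) * (sq (k := k) ((T i).filter (p i)) / m0) -
          (1 * (((P i).q : ℝ) - 1) + 2) * (((T i).filter (p i)).card / m0))) =
        c i * (2 * sq (k := k) ((T i).filter (p i)) / m0) -
          c i * (4 * ((P i).q + 1) * (((T i).filter (p i)).card / m0)) := by ring
    rw [h15, mul_sub]
    linarith
  have key2 := Finset.sum_le_sum key
  rw [Finset.sum_add_distrib, ← Finset.mul_sum, ← Finset.mul_sum] at key2
  have h3 : D / m0 * ∑ i ∈ s, (((T i).filter fun σ => ¬ p i σ).card : ℝ) *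
      (Real.log (P i).p / (P i).e) ≤ D ^ 2 * H := by
    have h4 := mul_le_mul_of_nonneg_left h2 (by positivity : 0 ≤ D / m0)
    refine h4.trans (le_of_eq ?_)
    field_simp
  have h4 : sq (k := k) T0 / m0 / (12 * Real.log (2 * D + 2)) =
      2 * (sq (k := k) T0 / m0 / (24 * Real.log (2 * D + 2))) := by
    rw [div_div, div_div]
    ring
  rw [h4]
  linarith

end Pool.Agent.Q188.RV
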