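import Pool.Agent.Q188.RV.One

/-!
# The inequality for one number in terms of the zeros of the conjugates of its minimal polynomial
-/

set_option autoImplicit false
set_option linter.unusedSectionVars false

open Finset Polynomial Module NumberField ValuativeRel Pool.Agent.Y642.LZ

universe v

namespace Pool.Agent.Q188.RV

open Pool.Agent.Y642.ND (gain wh wh_nonneg mah inv_dvd)

lemma fib_roots {k F : Type} [Field k] [NumberField k] [Field F] [NumberField F] [Algebra k F]
    {x : F} (hgen : Algebra.adjoin k {x} = ⊤) {Ω K : Type} [Field Ω] [Field K] (e : K →+* Ω)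
    (T : Finset (F →+* Ω)) (hT : ∀ σ, σ ∈ T ↔ ∃ y, e y = σ x) (τ : k →+* Ω) :
    fib T τ = {y : K | (minpoly k x).eval₂ τ (e y) = 0}.ncard := by
  classical
  have hfinm : Module.Finite k F := Module.Finite.of_restrictScalars_finite ℚ k F
  have hint : IsIntegral k x := Algebra.IsIntegral.isIntegral x
  letI := τ.toAlgebra
  have hτ : algebraMap k Ω = τ := rfl
  have h1 : fib T τ = Nat.card {σ // σ ∈ (T.filter fun σ => σ.comp (algebraMap k F) = τ)} := by
    rw [Nat.card_eq_fintype_card, Fintype.card_coe]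
    unfold fib
    congr 1
  rw [h1, ← Nat.card_coe_set_eq]
  have h2 : ∀ σ : {σ // σ ∈ (T.filter fun σ => σ.comp (algebraMap k F) = τ)},
      ∃ y : {y : K | (minpoly k x).eval₂ τ (e y) = 0}, e y.1 = σ.1 x := by
    intro σ
    obtain ⟨h3, h4⟩ := Finset.mem_filter.mp σ.2
    obtain ⟨y, hy⟩ := (hT σ.1).mp h3
    refine ⟨⟨y, ?_⟩, hy⟩
    show (minpoly k x).eval₂ τ (e y) = 0
    rw [hy]
    have h5 := congrArg σ.1 (minpoly.aeval k x)
    rw [map_zero, aeval_def, hom_eval₂, h4] at h5
    exact h5
  choose g hg using h2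
  refine Nat.card_congr (Equiv.ofBijective g ⟨?_, ?_⟩)
  · intro σ σ' h
    have h3 : σ.1 x = σ'.1 x := by rw [← hg σ, ← hg σ', h]
    apply Subtype.ext
    ext y
    have hy : y ∈ Algebra.adjoin k {x} := by rw [hgen]; trivial
    induction hy using Algebra.adjoin_induction with
    | mem y hy =>
      rw [Set.mem_singleton_iff] at hy
      rw [hy, h3]
    | algebraMap c =>
      have h4 := RingHom.congr_fun (Finset.mem_filter.mp σ.2).2 c
      have h5 := RingHom.congr_fun (Finset.mem_filter.mp σ'.2).2 c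
      exact h4.trans h5.symm
    | add a b _ _ ha hb => rw [map_add, map_add, ha, hb]
    | mul a b _ _ ha hb => rw [map_mul, map_mul, ha, hb]
  · intro y
    have hpb := PowerBasis.ofAdjoinEqTop_gen hint hgen
    have h3 : aeval (e y.1) (minpoly k (PowerBasis.ofAdjoinEqTop hint hgen).gen) = 0 := by
      rw [hpb, aeval_def]
      exact y.2
    set φ := (PowerBasis.ofAdjoinEqTop hint hgen).lift (e y.1) h3 with hφ
    have h4 : φ x = e y.1 := by
      have h5 := (PowerBasis.ofAdjoinEqTop hint hgen).lift_gen (e y.1) h3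
      rw [hpb] at h5
      exact h5
    have h5 : φ.toRingHom.comp (algebraMap k F) = τ := by
      ext c
      exact φ.commutes c
    refine ⟨⟨φ.toRingHom, Finset.mem_filter.mpr ⟨(hT _).mpr ⟨y.1, h4.symm⟩, h5⟩⟩, ?_⟩
    apply Subtype.ext
    apply e.injective
    rw [hg]
    exact h4

/-- a number field over which the degree is the same -/
lemma exists_k1 (B : IntermediateField ℚ ℂ) {α : ℂ} (hα : IsAlgebraic ℚ α) :
    ∃ k : IntermediateField ℚ ℂ, NumberField k ∧ k ≤ B ∧
      (minpoly k α).natDegree = (minpoly B α).natDegree := by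
  classical
  have hαi : IsIntegral ℚ α := hα.isIntegral
  have hαB : IsIntegral B α := hαi.tower_top
  have h1 : minpoly B α ∣ (minpoly ℚ α).map (algebraMap ℚ B) :=
    minpoly.dvd_map_of_isScalarTower ℚ B α
  have h2 := integralClosure.mem_lifts_of_monic_of_dvd_map B (minpoly.monic hαi)
    (minpoly.monic hαB) h1
  have h3 : ∀ i, IsIntegral ℚ (((minpoly B α).coeff i : B) : ℂ) := by
    intro i
    obtain ⟨g, hg⟩ := (Polynomial.mem_lifts _).mp h2
    rw [← hg, coeff_map]
    have h5 : IsIntegral ℚ (algebraMap (integralClosure ℚ B) B (g.coeff i)) := (g.coeff i).2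
    exact h5.map B.val
  set S : Set ℂ := (fun i => (((minpoly B α).coeff i : B) : ℂ)) ''
    (Finset.range ((minpoly B α).natDegree + 1) : Set ℕ) with hS
  have hSfin : Finite S := (Set.Finite.image _ (Finset.finite_toSet _)).to_subtype
  set k := IntermediateField.adjoin ℚ S with hk
  have hkB : k ≤ B := by
    rw [hk, IntermediateField.adjoin_le_iff]
    rintro _ ⟨i, _, rfl⟩
    exact ((minpoly B α).coeff i).2
  have hkfd : FiniteDimensional ℚ k := IntermediateField.finiteDimensional_adjoin fun y hy => by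
    obtain ⟨i, _, rfl⟩ := hy
    exact h3 i
  have hmem : ∀ i, (((minpoly B α).coeff i : B) : ℂ) ∈ k := by
    intro i
    rcases le_or_gt i (minpoly B α).natDegree with h4 | h4
    · exact IntermediateField.subset_adjoin ℚ S ⟨i, by simpa using Nat.lt_succ_of_le h4, rfl⟩
    · rw [coeff_eq_zero_of_natDegree_lt h4]
      exact zero_mem k
  refine ⟨k, { to_charZero := inferInstance, to_finiteDimensional := hkfd }, hkB, ?_⟩
  have hαk : IsIntegral k α := hαi.tower_top
  -- the polynomial over `k`
  have hlift : (minpoly B α).map (algebraMap B ℂ) ∈ lifts (algebraMap k ℂ) := by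
    rw [lifts_iff_coeff_lifts]
    intro i
    rw [coeff_map]
    exact ⟨⟨_, hmem i⟩, rfl⟩
  obtain ⟨g, hg, hgd⟩ := lifts_and_natDegree_eq_and_monic hlift
    ((minpoly.monic hαB).map (algebraMap B ℂ))
  have hg0 : aeval α g = 0 := by
    rw [← aeval_map_algebraMap ℂ α g, hg, aeval_map_algebraMap, minpoly.aeval]
  apply le_antisymm
  · have h4 := natDegree_le_of_dvd (minpoly.dvd k α hg0) hgd.2.ne_zero
    rwa [hgd.1, natDegree_map] at h4
  · set ψ := (IntermediateField.inclusion hkB).toRingHom with hψ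
    have h4 : aeval α ((minpoly k α).map ψ) = 0 := by
      rw [aeval_def, eval₂_map]
      exact minpoly.aeval k α
    have h5 := natDegree_le_of_dvd (minpoly.dvd B α h4)
      ((minpoly.monic hαk).map ψ).ne_zero
    rwa [natDegree_map] at h5

/-- the inequality for one number, in terms of the zeros of the conjugates of its minimal
polynomial over `k` -/
theorem one_k (k : IntermediateField ℚ ℂ) [NumberField k] {α : ℂ} (hα : IsAlgebraic ℚ α)
    {f : ℤ[X]} (hf : Irreducible f) (hx : aeval α f = 0)
    {ι : Type v} (s : Finset ι) (P : ι → Place.{0}) (hinj : Set.InjOn (fun i => (P i).p) s)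
    {r : (i : ι) → (k →+* AlgebraicClosure (P i).K) → ℕ} {r0 : (k →+* ℂ) → ℕ}
    (hr : ∀ i τ, r i τ = {y : (P i).K | (minpoly k α).eval₂ τ
      (algebraMap (P i).K (AlgebraicClosure (P i).K) y) = 0}.ncard)
    (hr0 : ∀ τ, r0 τ = {t : ℝ | (minpoly k α).eval₂ τ (Complex.ofRealHom t) = 0}.ncard) {D : ℝ}
    (hD : D = (minpoly k α).natDegree) :
    ∑ i ∈ s, Real.log (P i).p / ((P i).e * (P i).q) *
        ((∑ τ, (r i τ : ℝ) ^ 2) / finrank ℚ k -
          4 * ((P i).q + 1) * ((∑ τ, (r i τ : ℝ)) / finrank ℚ k)) +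
      (∑ τ, (r0 τ : ℝ) ^ 2) / finrank ℚ k / (12 * Real.log (2 * D + 2)) ≤
      2 * (D * Real.log D) + 14 * ((∑ τ, (r0 τ : ℝ)) / finrank ℚ k) + 9 * D ^ 2 * wh f := by
  classical
  have hαi : IsIntegral ℚ α := hα.isIntegral
  have hαk : IsIntegral k α := hαi.tower_top
  have hfd : FiniteDimensional k (IntermediateField.adjoin k {α}) :=
    IntermediateField.adjoin.finiteDimensional hαk
  have hfd2 : FiniteDimensional ℚ (IntermediateField.adjoin k {α}) :=
    FiniteDimensional.trans ℚ k _
  have hnf : NumberField (IntermediateField.adjoin k {α}) :=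
    { to_charZero := inferInstance, to_finiteDimensional := hfd2 }
  set x := IntermediateField.AdjoinSimple.gen k α with hxdef
  have hmin : minpoly k x = minpoly k α := IntermediateField.minpoly_gen k α
  have hgen : Algebra.adjoin k {x} = ⊤ := by
    rw [eq_top_iff]
    intro z _
    have h1 : (z : ℂ) ∈ Algebra.adjoin k {α} := by
      rw [← IntermediateField.adjoin_simple_toSubalgebra_of_isAlgebraic hαk.isAlgebraic]
      exact z.2
    have h2 : (Algebra.adjoin k {x}).map (IntermediateField.adjoin k {α}).val =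
        Algebra.adjoin k {α} := by
      rw [AlgHom.map_adjoin, Set.image_singleton]
      rfl
    rw [← h2] at h1
    obtain ⟨w, hw, hwz⟩ := h1
    have h3 : w = z := Subtype.ext hwz
    rw [← h3]
    exact hw
  have hx' : aeval x f = 0 := by
    have h1 := Polynomial.aeval_algebraMap_apply ℂ x f
    have h2 : algebraMap (IntermediateField.adjoin k {α}) ℂ x = α := rfl
    rw [h2, hx] at h1
    exact (algebraMap (IntermediateField.adjoin k {α}) ℂ).injective (by rw [← h1, map_zero])
  have hD' : D = finrank k (IntermediateField.adjoin k {α}) := by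
    rw [hD, IntermediateField.adjoin.finrank hαk]
  let T : (i : ι) → Finset (IntermediateField.adjoin k {α} →+* AlgebraicClosure (P i).K) :=
    fun i => Finset.univ.filter fun σ => ∃ y : (P i).K,
      algebraMap (P i).K (AlgebraicClosure (P i).K) y = σ x
  let T0 : Finset (IntermediateField.adjoin k {α} →+* ℂ) :=
    Finset.univ.filter fun σ => ∃ t : ℝ, Complex.ofRealHom t = σ x
  have h1 := one_F (k := k) (F := IntermediateField.adjoin k {α}) hgen hf hx' s P hinj T
    (fun i _ σ hσ => (Finset.mem_filter.mp hσ).2) T0 (fun σ hσ => by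
      obtain ⟨t, ht⟩ := (Finset.mem_filter.mp hσ).2
      rw [← ht]
      simp) hD'
  have hT : ∀ i τ, fib (T i) τ = r i τ := by
    intro i τ
    rw [hr, ← hmin]
    exact fib_roots hgen (algebraMap (P i).K (AlgebraicClosure (P i).K)) (T i)
      (fun σ => by simp [T]) τ
  have hT0 : ∀ τ, fib T0 τ = r0 τ := by
    intro τ
    rw [hr0, ← hmin]
    exact fib_roots hgen Complex.ofRealHom T0 (fun σ => by simp [T0]) τ
  have h2 : ∀ i, mom k 1 (T i) = ∑ τ, (r i τ : ℝ) ^ 2 := by
    intro i
    rw [mom_one]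
    unfold sq
    exact Finset.sum_congr rfl fun τ _ => by rw [hT]
  have h3 : ∀ i, ((T i).card : ℝ) = ∑ τ, (r i τ : ℝ) := by
    intro i
    rw [← fib_sum (k := k)]
    exact Finset.sum_congr rfl fun τ _ => by rw [hT]
  have h4 : mom k 1 T0 = ∑ τ, (r0 τ : ℝ) ^ 2 := by
    rw [mom_one]
    unfold sq
    exact Finset.sum_congr rfl fun τ _ => by rw [hT0]
  have h5 : (T0.card : ℝ) = ∑ τ, (r0 τ : ℝ) := by
    rw [← fib_sum (k := k)]
    exact Finset.sum_congr rfl fun τ _ => by rw [hT0]
  simp only [h2, h3, h4, h5] at h1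
  exact h1

end Pool.Agent.Q188.RV
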