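import Pool.Agent.Q188.RV.Two
import Pool.Agent.Q188.RV.Fld

/-!
# The relative inequality over an arbitrary field of algebraic numbers
-/

set_option autoImplicit false
set_option linter.unusedSectionVars false

open Finset Polynomial Module NumberField ValuativeRel Pool.Agent.Y642.LZ

universe v

namespace Pool.Agent.Q188.RV

open Pool.Agent.Y642.ND (gain wh wh_nonneg)

instance instIA : Algebra.IsAlgebraic ℚ (AlgebraicClosure ℚ) := AlgebraicClosure.isAlgebraic ℚ

instance instII : Algebra.IsIntegral ℚ (AlgebraicClosure ℚ) :=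
  Algebra.isAlgebraic_iff_isIntegral.mp instIA

lemma degreeOf_map_le {n : ℕ} {R S : Type} [CommRing R] [CommRing S] (g : R →+* S)
    (G : MvPolynomial (Fin n) R) (j : Fin n) : (MvPolynomial.map g G).degreeOf j ≤ G.degreeOf j := by
  classical
  rw [MvPolynomial.degreeOf_eq_sup, MvPolynomial.degreeOf_eq_sup]
  exact Finset.sup_mono (MvPolynomial.support_map_subset _ _)

theorem top {L : Type} [Field L] [NumberField L] {n : ℕ} (hn : 1 ≤ n) {x : Fin n → L}
    (hgenL : Algebra.adjoin ℚ (Set.range x) = ⊤) {f : Fin n → ℤ[X]}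
    (hf : ∀ j, Irreducible (f j)) (hx : ∀ j, aeval (x j) (f j) = 0)
    (φ : L →+* AlgebraicClosure ℚ) (B : IntermediateField ℚ (AlgebraicClosure ℚ))
    {δ : ℕ} (hδ : 1 ≤ δ)
    (hobs : ∀ G : MvPolynomial (Fin n) B, G ≠ 0 → (∀ j, G.degreeOf j < δ) →
      MvPolynomial.aeval (fun j => φ (x j)) G ≠ 0)
    {ι : Type v} (s : Finset ι) (P : ι → Place.{0}) (hinj : Set.InjOn (fun i => (P i).p) s)
    (T : (i : ι) → Finset (L →+* (P i).K))
    (hT : ∀ i ∈ s, ∀ τ ∈ T i, ∀ j, τ (x j) ∈ 𝒪[(P i).K])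
    {r : ℕ} (hr : r ≤ InfinitePlace.nrRealPlaces L) {D R0 : ℝ} {R : ι → ℝ}
    (hD : D = finrank B (IntermediateField.adjoin B (Set.range fun j => φ (x j))))
    (hR : ∀ i, R i = (T i).card / finrank ℚ L * D)
    (hR0 : R0 = r / finrank ℚ L * D) :
    ∑ i ∈ s, 2 * Real.log (P i).p / ((P i).e * (P i).q) * gain n (P i).q (R i) +
      R0 ^ (1 + 1 / (n : ℝ)) / (24 * Real.log (2 * D + 2)) ≤
      D * Real.log D + 7 * n * R0 + 4 * (D ^ 2 / (δ : ℝ) ^ (n - 1)) * ∑ j, wh (f j) := by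
  classical
  obtain ⟨k, hkB, hkfd, hkD⟩ := exists_k B (fun j => φ (x j))
  rw [← hkD] at hD
  have hnk : NumberField k := { to_charZero := inferInstance, to_finiteDimensional := hkfd }
  set F := IntermediateField.adjoin k (Set.range fun j => φ (x j)) with hF
  have hint : ∀ y : AlgebraicClosure ℚ, IsIntegral ℚ y := fun y => Algebra.IsIntegral.isIntegral y
  have hFk : FiniteDimensional k F :=
    IntermediateField.finiteDimensional_adjoin fun y _ => (hint y).tower_top
  have hFQ : FiniteDimensional ℚ F := FiniteDimensional.trans ℚ k F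
  have hnF : NumberField F := { to_charZero := inferInstance, to_finiteDimensional := hFQ }
  have hmem : ∀ y : L, φ y ∈ F := by
    intro y
    have hy : y ∈ Algebra.adjoin ℚ (Set.range x) := by rw [hgenL]; trivial
    induction hy using Algebra.adjoin_induction with
    | mem y hy =>
      obtain ⟨j, rfl⟩ := hy
      exact IntermediateField.subset_adjoin _ _ ⟨j, rfl⟩
    | algebraMap c =>
      rw [eq_ratCast, map_ratCast]
      exact SubfieldClass.ratCast_mem F c
    | add a b _ _ ha hb =>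
      rw [map_add]
      exact add_mem ha hb
    | mul a b _ _ ha hb =>
      rw [map_mul]
      exact mul_mem ha hb
  letI : Algebra L F := (φ.codRestrict F hmem).toAlgebra
  have hval : ∀ y : L, ((algebraMap L F y : F) : AlgebraicClosure ℚ) = φ y := fun y => rfl
  have halg : ∀ y ∈ (Set.range fun j => φ (x j)), IsAlgebraic k y := fun y _ =>
    (hint y).tower_top.isAlgebraic
  have hgen : Algebra.adjoin k (Set.range fun j => algebraMap L F (x j)) = ⊤ := by
    rw [eq_top_iff]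
    intro z _
    have h1 : (z : AlgebraicClosure ℚ) ∈ Algebra.adjoin k (Set.range fun j => φ (x j)) := by
      rw [← IntermediateField.adjoin_toSubalgebra_of_isAlgebraic halg]
      exact z.2
    have h2 : (Algebra.adjoin k (Set.range fun j => algebraMap L F (x j))).map F.val =
        Algebra.adjoin k (Set.range fun j => φ (x j)) := by
      rw [AlgHom.map_adjoin, ← Set.range_comp]
      rfl
    rw [← h2] at h1
    obtain ⟨w, hw, hwz⟩ := h1
    have h3 : w = z := Subtype.ext hwz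
    rw [← h3]
    exact hw
  have hobs' : ∀ G : MvPolynomial (Fin n) k, G ≠ 0 → (∀ j, G.degreeOf j < δ) →
      MvPolynomial.aeval (fun j => algebraMap L F (x j)) G ≠ 0 := by
    intro G hG hdeg h0
    have hinc : Function.Injective (IntermediateField.inclusion hkB).toRingHom :=
      (IntermediateField.inclusion hkB).toRingHom.injective
    refine hobs (MvPolynomial.map (IntermediateField.inclusion hkB).toRingHom G) ?_ ?_ ?_
    · intro h1
      exact hG (MvPolynomial.map_injective _ hinc (by rw [h1, map_zero]))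
    · intro j
      exact lt_of_le_of_lt (degreeOf_map_le _ _ _) (hdeg j)
    · have h1 := congrArg (algebraMap F (AlgebraicClosure ℚ)) h0
      rw [map_zero] at h1
      rw [← h1]
      rw [MvPolynomial.aeval_def, MvPolynomial.eval₂_map, MvPolynomial.aeval_def,
        MvPolynomial.hom_eval₂]
      rfl
  exact rel_two (k := k) (F := F) hn hf hx hgen hδ hobs' s P hinj T hT hr hD hR hR0

/-- the block version, over a field which contains `k` -/
theorem topb {k F : Type} [Field k] [NumberField k] [Field F] [NumberField F] [Algebra k F]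
    {n : ℕ} (hn : 1 ≤ n) {x : Fin n → F}
    (hgen : Algebra.adjoin k (Set.range x) = ⊤) {f : Fin n → ℤ[X]}
    (hf : ∀ j, Irreducible (f j)) (hx : ∀ j, aeval (x j) (f j) = 0)
    {B Ω : Type} [Field B] [Field Ω] [Algebra B Ω] (φ : F →+* Ω) (ψ : k →+* B)
    (hφψ : ∀ c, φ (algebraMap k F c) = algebraMap B Ω (ψ c)) {δ : ℕ} (hδ : 1 ≤ δ)
    (hobs : ∀ G : MvPolynomial (Fin n) B, G ≠ 0 → (∀ j, G.degreeOf j < δ) →
      MvPolynomial.aeval (fun j => φ (x j)) G ≠ 0)
    {ι : Type v} (s : Finset ι) (P : ι → Place.{0}) (hinj : Set.InjOn (fun i => (P i).p) s)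
    (T : (i : ι) → Finset (F →+* AlgebraicClosure (P i).K))
    (hT : ∀ i ∈ s, ∀ σ ∈ T i, ∀ j, ∃ z : 𝒪[(P i).K],
      algebraMap 𝒪[(P i).K] (AlgebraicClosure (P i).K) z = σ (x j))
    (T0 : Finset (F →+* ℂ)) (hT0 : ∀ σ ∈ T0, ∀ j, (((σ (x j)).re : ℝ) : ℂ) = σ (x j)) {D : ℝ}
    (hD : D = finrank k F) :
    ∑ i ∈ s, 2 * Real.log (P i).p / ((P i).e * (P i).q) *
        ((n : ℝ) / (n + 1) * (mom k n (T i) / finrank ℚ k) -
          (n * (((P i).q : ℝ) - 1) + 2) * ((T i).card / finrank ℚ k)) +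
      mom k n T0 / finrank ℚ k / (24 * Real.log (2 * D + 2)) ≤
      D * Real.log D + 7 * n * (T0.card / finrank ℚ k) +
        4 * (D ^ 2 / (δ : ℝ) ^ (n - 1)) * ∑ j, wh (f j) := by
  refine blk_two (k := k) (F := F) hn hf hx hgen hδ ?_ s P hinj T hT T0 hT0 hD
  intro G hG hdeg h0
  refine hobs (MvPolynomial.map ψ G) ?_ ?_ ?_
  · intro h1
    exact hG (MvPolynomial.map_injective _ ψ.injective (by rw [h1, map_zero]))
  · intro j
    exact lt_of_le_of_lt (degreeOf_map_le _ _ _) (hdeg j)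
  · have h1 := congrArg φ h0
    rw [map_zero] at h1
    rw [← h1]
    rw [MvPolynomial.aeval_def, MvPolynomial.eval₂_map, MvPolynomial.aeval_def,
      MvPolynomial.hom_eval₂]
    have h2 : (algebraMap B Ω).comp ψ = φ.comp (algebraMap k F) := by
      ext c
      exact (hφψ c).symm
    rw [h2]

/-- the final form -/
theorem fin {n : ℕ} (hn : 1 ≤ n) {ι : Type v} (s : Finset ι) (P : ι → Place.{0}) {m M : ι → ℝ}
    {m0 M0 D S : ℝ} {δ : ℕ} (hδ : 1 ≤ δ) (hD1 : 1 ≤ D) (hm : ∀ i, 0 ≤ m i) (hm0 : 0 ≤ m0)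
    (h1 : ∑ i ∈ s, 2 * Real.log (P i).p / ((P i).e * (P i).q) *
        ((n : ℝ) / (n + 1) * M i - (n * (((P i).q : ℝ) - 1) + 2) * m i) +
      M0 / (24 * Real.log (2 * D + 2)) ≤
      D * Real.log D + 7 * n * m0 + 4 * (D ^ 2 / (δ : ℝ) ^ (n - 1)) * S)
    (hlarge : ∀ i ∈ s, (4 * (n : ℝ) * (P i).q + 8) * m i ≤ M i) {X : ℝ}
    (hX : X = ∑ i ∈ s, Real.log (P i).p / ((P i).e * (P i).q) * M i +
      M0 / (12 * Real.log (2 * D + 2)))
    (hXD : 4 * (D * Real.log D + 7 * n * m0) ≤ X) :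
    X ≤ 16 * (D ^ 2 / (δ : ℝ) ^ (n - 1)) * S ∧
    ∀ κ : ℝ, 0 < κ → κ * D ≤ (δ : ℝ) ^ n → κ / 4 * Real.log D ≤ δ * S := by
  have hn1 : (1 : ℝ) ≤ n := by exact_mod_cast hn
  have h2 : ∑ i ∈ s, Real.log (P i).p / ((P i).e * (P i).q) * M i / 2 ≤
      ∑ i ∈ s, 2 * Real.log (P i).p / ((P i).e * (P i).q) *
        ((n : ℝ) / (n + 1) * M i - (n * (((P i).q : ℝ) - 1) + 2) * m i) := by
    refine Finset.sum_le_sum fun i hi => ?_
    have hMi : 0 ≤ M i := le_trans (mul_nonneg (by positivity) (hm i)) (hlarge i hi)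
    have h3 : M i / 4 ≤ (n : ℝ) / (n + 1) * M i - (n * (((P i).q : ℝ) - 1) + 2) * m i := by
      have h4 : (1 / 2 : ℝ) ≤ (n : ℝ) / (n + 1) := by
        rw [div_le_div_iff₀ (by norm_num) (by linarith)]
        linarith
      have h5 := mul_le_mul_of_nonneg_right h4 hMi
      have h6 := hlarge i hi
      have h7 : 0 ≤ (n : ℝ) * m i := mul_nonneg (by linarith) (hm i)
      nlinarith
    have h4 : 0 ≤ 2 * Real.log (P i).p / ((P i).e * (P i).q) := by
      have : 0 ≤ Real.log (P i).p := Real.log_natCast_nonneg _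
      positivity
    have h5 := mul_le_mul_of_nonneg_left h3 h4
    refine le_trans (le_of_eq ?_) h5
    ring
  rw [← Finset.sum_div] at h2
  have h3 : M0 / (12 * Real.log (2 * D + 2)) / 2 = M0 / (24 * Real.log (2 * D + 2)) := by
    rw [div_div]
    congr 1
    ring
  have hX2 : X / 2 ≤ D * Real.log D + 7 * n * m0 + 4 * (D ^ 2 / (δ : ℝ) ^ (n - 1)) * S := by
    rw [hX, add_div, h3]
    linarith
  have hmain : X ≤ 16 * (D ^ 2 / (δ : ℝ) ^ (n - 1)) * S := by nlinarith
  refine ⟨hmain, fun κ hκ hκD => ?_⟩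
  have hlog : 0 ≤ Real.log D := Real.log_nonneg hD1
  have hδ0 : (0 : ℝ) < δ := by exact_mod_cast hδ
  have hpow : (0 : ℝ) < (δ : ℝ) ^ (n - 1) := by positivity
  have h4 : (δ : ℝ) ^ (n - 1) * X ≤ 16 * D ^ 2 * S := by
    have h5 : 16 * (D ^ 2 / (δ : ℝ) ^ (n - 1)) * S = 16 * D ^ 2 * S / (δ : ℝ) ^ (n - 1) := by ring
    rw [h5, le_div_iff₀ hpow] at hmain
    linarith
  have h5 : (δ : ℝ) ^ n * X ≤ 16 * D ^ 2 * (δ * S) := by
    have h6 : (δ : ℝ) ^ n = δ * (δ : ℝ) ^ (n - 1) := by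
      rw [← pow_succ']
      congr 1
      omega
    have h7 := mul_le_mul_of_nonneg_left h4 hδ0.le
    rw [h6]
    linarith
  have hX' : 4 * (D * Real.log D) ≤ X := by
    have h8 : (0 : ℝ) ≤ 7 * n * m0 := by positivity
    linarith
  have h6 : κ * D * (4 * (D * Real.log D)) ≤ 16 * D ^ 2 * (δ * S) :=
    (mul_le_mul hκD hX' (by positivity) (by positivity)).trans h5
  have h7 : 16 * D ^ 2 * (κ / 4 * Real.log D) ≤ 16 * D ^ 2 * (δ * S) := by
    have h8 : 16 * D ^ 2 * (κ / 4 * Real.log D) = κ * D * (4 * (D * Real.log D)) := by ring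
    rw [h8]
    exact h6
  exact le_of_mul_le_mul_left h7 (by positivity)

end Pool.Agent.Q188.RV
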