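import Pool.Agent.Q188.RV.Adel
import Pool.Agent.Q188.RV.Gro

/-!
# The relative inequality in terms of the conjugates over `ℚ`
-/

set_option autoImplicit false
set_option linter.unusedSectionVars false

open Finset Polynomial Module NumberField ValuativeRel Pool.Agent.Y642.LZ

universe v

namespace Pool.Agent.Q188.RV

open Pool.Agent.Y642.ND (gain wh wh_nonneg)

variable {L k F : Type} [Field L] [NumberField L] [Field k] [NumberField k] [Field F]
  [NumberField F] [Algebra k F] [Algebra L F]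

/-- the number of extensions of the embeddings in a finite set -/
lemma ext_card {Ω : Type} [Field Ω] [CharZero Ω] [IsAlgClosed Ω] [DecidableEq (F →+* Ω)]
    [Fintype (F →+* Ω)] {α : Type} (T : Finset α) (g : α → (L →+* Ω)) (hg : Function.Injective g) :
    ∃ T' : Finset (F →+* Ω), T'.card = T.card * finrank L F ∧
      ∀ σ ∈ T', ∃ τ ∈ T, σ.comp (algebraMap L F) = g τ := by
  classical
  refine ⟨T.biUnion fun τ => Finset.univ.filter fun σ => σ.comp (algebraMap L F) = g τ, ?_, ?_⟩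
  · rw [Finset.card_biUnion]
    · rw [Finset.sum_congr rfl (g := fun _ => finrank L F), Finset.sum_const, smul_eq_mul]
      intro τ _
      rw [← over_card (F := F) (g τ), Nat.card_eq_fintype_card, Fintype.card_subtype]
    · intro τ _ τ' _ hne
      show Disjoint (Finset.univ.filter fun σ : F →+* Ω => σ.comp (algebraMap L F) = g τ)
        (Finset.univ.filter fun σ : F →+* Ω => σ.comp (algebraMap L F) = g τ')
      rw [Finset.disjoint_left]
      intro σ h1 h2
      rw [Finset.mem_filter] at h1 h2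
      exact hne (hg (h1.2.symm.trans h2.2))
  · intro σ hσ
    rw [Finset.mem_biUnion] at hσ
    obtain ⟨τ, hτ, h⟩ := hσ
    exact ⟨τ, hτ, (Finset.mem_filter.mp h).2⟩

lemma linInd' {κ : Type} [Field κ] [Algebra κ F] {n : ℕ} {x : Fin n → F} {δ : ℕ}
    (hobs : ∀ G : MvPolynomial (Fin n) κ, G ≠ 0 → (∀ j, G.degreeOf j < δ) →
      MvPolynomial.aeval x G ≠ 0) :
    LinearIndependent κ (fun k : Fin n → Fin δ => ∏ j, x j ^ (k j : ℕ)) := by
  classical
  rw [Fintype.linearIndependent_iff]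
  intro g hg
  let c : (Fin n → Fin δ) → (Fin n →₀ ℕ) := fun k => Finsupp.equivFunOnFinite.symm
    fun j => (k j : ℕ)
  have hc : Function.Injective c := by
    intro k k' h
    funext j
    have h1 := DFunLike.congr_fun h j
    exact Fin.ext (by simpa [c] using h1)
  set G : MvPolynomial (Fin n) κ := ∑ k, MvPolynomial.monomial (c k) (g k) with hG
  have hcoeff : ∀ k, G.coeff (c k) = g k := by
    intro k
    rw [hG, MvPolynomial.coeff_sum, Finset.sum_eq_single k]
    · simp
    · intro k' _ hk'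
      rw [MvPolynomial.coeff_monomial, if_neg]
      intro h
      exact hk' (hc h)
    · intro h
      exact absurd (Finset.mem_univ k) h
  have hev : MvPolynomial.aeval x G = 0 := by
    rw [hG, map_sum, ← hg]
    refine Finset.sum_congr rfl fun k _ => ?_
    rw [MvPolynomial.aeval_monomial, Finsupp.prod_fintype _ _ (fun i => pow_zero _),
      Algebra.smul_def]
    rfl
  have hG0 : G = 0 := by
    by_contra hne
    refine hobs G hne (fun j => ?_) hev
    by_cases hδ : 0 < δ
    · rw [MvPolynomial.degreeOf_lt_iff hδ]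
      intro m hm
      have h1 : m ∈ Finset.univ.image c := by
        by_contra hcon
        rw [MvPolynomial.mem_support_iff] at hm
        apply hm
        rw [hG, MvPolynomial.coeff_sum]
        refine Finset.sum_eq_zero fun k _ => ?_
        rw [MvPolynomial.coeff_monomial, if_neg]
        intro h
        exact hcon (Finset.mem_image.mpr ⟨k, Finset.mem_univ k, h⟩)
      obtain ⟨k, _, rfl⟩ := Finset.mem_image.mp h1
      simpa [c] using (k j).2
    · exfalso
      apply hne
      rw [hG]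
      refine Finset.sum_eq_zero fun k _ => ?_
      have := (k j).2
      omega
  intro k
  rw [← hcoeff k, hG0, MvPolynomial.coeff_zero]

/-- the inequality in terms of the moments and of the obstruction index -/
theorem blk_two {n : ℕ} (hn : 1 ≤ n) {x : Fin n → F} {f : Fin n → ℤ[X]}
    (hf : ∀ j, Irreducible (f j)) (hx : ∀ j, aeval (x j) (f j) = 0)
    (hgen : Algebra.adjoin k (Set.range x) = ⊤)
    {δ : ℕ} (hδ : 1 ≤ δ)
    (hobs : ∀ G : MvPolynomial (Fin n) k, G ≠ 0 → (∀ j, G.degreeOf j < δ) →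
      MvPolynomial.aeval x G ≠ 0)
    {ι : Type v} (s : Finset ι) (P : ι → Place.{0}) (hinj : Set.InjOn (fun i => (P i).p) s)
    (T : (i : ι) → Finset (F →+* AlgebraicClosure (P i).K))
    (hT : ∀ i ∈ s, ∀ σ ∈ T i, ∀ j, ∃ z : 𝒪[(P i).K],
      algebraMap 𝒪[(P i).K] (AlgebraicClosure (P i).K) z = σ (x j))
    (T0 : Finset (F →+* ℂ)) (hT0 : ∀ σ ∈ T0, ∀ j, (((σ (x j)).re : ℝ) : ℂ) = σ (x j)) {D : ℝ}
    (hD : D = finrank k F) :
    ∑ i ∈ s, 2 * Real.log (P i).p / ((P i).e * (P i).q) *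
        ((n : ℝ) / (n + 1) * (mom k n (T i) / finrank ℚ k) -
          (n * (((P i).q : ℝ) - 1) + 2) * ((T i).card / finrank ℚ k)) +
      mom k n T0 / finrank ℚ k / (24 * Real.log (2 * D + 2)) ≤
      D * Real.log D + 7 * n * (T0.card / finrank ℚ k) +
        4 * (D ^ 2 / (δ : ℝ) ^ (n - 1)) * ∑ j, wh (f j) := by
  classical
  have hfinm : Module.Finite k F := Module.Finite.of_restrictScalars_finite ℚ k F
  obtain ⟨M, hM1, hM2⟩ := span Pool.Agent.Y220.ND.t hn hgen hδ (linInd' hobs)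
  have hkpos : (0 : ℝ) < finrank ℚ k := by exact_mod_cast (finrank_pos : 0 < finrank ℚ k)
  have hDpos : (0 : ℝ) < D := by rw [hD]; exact_mod_cast (finrank_pos : 0 < finrank k F)
  have hD1 : (1 : ℝ) ≤ D := by
    rw [hD]
    exact_mod_cast (finrank_pos : 0 < finrank k F)
  obtain ⟨N, hN1, hN, hmain⟩ := rel_mom (k := k) (F := F) hn hf hx hM2 s P hinj T hT T0 hT0
  rw [← hD] at hmain
  have hwh : ∀ j, 0 ≤ wh (f j) := fun j => wh_nonneg (hf j).ne_zero
  have hS0 : 0 ≤ ∑ j, wh (f j) := Finset.sum_nonneg fun j _ => hwh j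
  set S := ∑ j, wh (f j) with hS
  set M0 := mom k n T0 / finrank ℚ k with hM0
  set R0 : ℝ := T0.card / finrank ℚ k with hR0
  have hn1 : (1 : ℝ) ≤ n := by exact_mod_cast hn
  have hR0n : 0 ≤ R0 := by
    rw [hR0]
    positivity
  have hX0 : 0 ≤ M0 := by
    rw [hM0]
    refine div_nonneg ?_ hkpos.le
    unfold mom
    exact Finset.sum_nonneg fun σ _ => Real.rpow_nonneg (Nat.cast_nonneg _) _
  have hδ0 : (1 : ℝ) ≤ (δ : ℝ) ^ (n - 1) := one_le_pow₀ (by exact_mod_cast hδ)
  have hMD : (M : ℝ) * (δ : ℝ) ^ (n - 1) ≤ 2 * D := by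
    rw [hD]
    exact_mod_cast hM1
  have hM2D : (M : ℝ) ≤ 2 * D := by
    have h1 : (M : ℝ) * 1 ≤ M * (δ : ℝ) ^ (n - 1) :=
      mul_le_mul_of_nonneg_left hδ0 (Nat.cast_nonneg _)
    linarith
  have hlogM : Real.log ((M : ℝ) + 2) ≤ Real.log (2 * D + 2) :=
    Real.log_le_log (by positivity) (by linarith)
  have hlogpos : 0 < Real.log (2 * D + 2) := Real.log_pos (by linarith)
  have hN0 : (0 : ℝ) < N := by exact_mod_cast hN1
  have hNle : (N : ℝ) ≤ 16 * Real.log (2 * D + 2) := by linarith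
  have hl2 : (0.693 : ℝ) < Real.log 2 := by linarith [Real.log_two_gt_d9]
  have hl2' : Real.log 2 < 0.7 := by linarith [Real.log_two_lt_d9]
  have hl6 : Real.log 6 < 2.1 := by
    have h1 : Real.log 6 ≤ Real.log (2 ^ 3) := Real.log_le_log (by norm_num) (by norm_num)
    rw [Real.log_pow] at h1
    push_cast at h1
    linarith
  have h1 : M0 / (32 * Real.log (2 * D + 2)) ≤ (n : ℝ) / (n + 1) * M0 / N := by
    have h2 : (1 / 2 : ℝ) ≤ (n : ℝ) / (n + 1) := by
      rw [div_le_div_iff₀ (by norm_num) (by linarith)]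
      linarith
    have h3 : M0 / (16 * Real.log (2 * D + 2)) ≤ M0 / N :=
      div_le_div_of_nonneg_left hX0 hN0 hNle
    have h4 : (1 / 2 : ℝ) * (M0 / (16 * Real.log (2 * D + 2))) ≤
        (n : ℝ) / (n + 1) * (M0 / N) :=
      mul_le_mul h2 h3 (by positivity) (by positivity)
    have h5 : (1 / 2 : ℝ) * (M0 / (16 * Real.log (2 * D + 2))) =
        M0 / (32 * Real.log (2 * D + 2)) := by
      field_simp
      ring
    rw [mul_div_assoc, ← h5]
    exact h4
  set Y := M0 / (32 * Real.log (2 * D + 2)) with hY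
  have hY0 : 0 ≤ Y := by positivity
  have h2 : M0 / (24 * Real.log (2 * D + 2)) = 4 / 3 * Y := by
    rw [hY]
    field_simp
    ring
  have h3 : 4 / 3 * Y - 2.8 * R0 ≤
      2 * Real.log 2 * ((n : ℝ) / (n + 1) * M0 / N - 2 * R0) := by
    have h4 : 2 * Real.log 2 * (Y - 2 * R0) ≤
        2 * Real.log 2 * ((n : ℝ) / (n + 1) * M0 / N - 2 * R0) :=
      mul_le_mul_of_nonneg_left (by linarith) (by linarith)
    nlinarith
  have h4 : 2 * n * Real.log 6 * R0 ≤ 4.2 * n * R0 := by
    have h5 : 0 ≤ (n : ℝ) * R0 := by positivity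
    nlinarith
  have h5 : 2 * D * ((M : ℝ) * S) ≤ 4 * (D ^ 2 / (δ : ℝ) ^ (n - 1)) * S := by
    have h6 : (M : ℝ) ≤ 2 * D / (δ : ℝ) ^ (n - 1) := by
      rw [le_div_iff₀ (by linarith)]
      exact hMD
    have h7 : 4 * (D ^ 2 / (δ : ℝ) ^ (n - 1)) * S = 2 * D * ((2 * D / (δ : ℝ) ^ (n - 1)) * S) := by
      ring
    rw [h7]
    gcongr
  rw [h2]
  have h6 : 2.8 * R0 ≤ 2.8 * n * R0 := by nlinarith
  linarith

theorem rel_two {n : ℕ} (hn : 1 ≤ n) {x : Fin n → L} {f : Fin n → ℤ[X]}
    (hf : ∀ j, Irreducible (f j)) (hx : ∀ j, aeval (x j) (f j) = 0)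
    (hgen : Algebra.adjoin k (Set.range fun j => algebraMap L F (x j)) = ⊤)
    {δ : ℕ} (hδ : 1 ≤ δ)
    (hobs : ∀ G : MvPolynomial (Fin n) k, G ≠ 0 → (∀ j, G.degreeOf j < δ) →
      MvPolynomial.aeval (fun j => algebraMap L F (x j)) G ≠ 0)
    {ι : Type v} (s : Finset ι) (P : ι → Place.{0}) (hinj : Set.InjOn (fun i => (P i).p) s)
    (T : (i : ι) → Finset (L →+* (P i).K))
    (hT : ∀ i ∈ s, ∀ τ ∈ T i, ∀ j, τ (x j) ∈ 𝒪[(P i).K])
    {r : ℕ} (hr : r ≤ InfinitePlace.nrRealPlaces L) {D R0 : ℝ} {R : ι → ℝ}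
    (hD : D = finrank k F) (hR : ∀ i, R i = (T i).card / finrank ℚ L * D)
    (hR0 : R0 = r / finrank ℚ L * D) :
    ∑ i ∈ s, 2 * Real.log (P i).p / ((P i).e * (P i).q) * gain n (P i).q (R i) +
      R0 ^ (1 + 1 / (n : ℝ)) / (24 * Real.log (2 * D + 2)) ≤
      D * Real.log D + 7 * n * R0 + 4 * (D ^ 2 / (δ : ℝ) ^ (n - 1)) * ∑ j, wh (f j) := by
  classical
  have hfinm : Module.Finite k F := Module.Finite.of_restrictScalars_finite ℚ k F
  have hfinL : Module.Finite L F := Module.Finite.of_restrictScalars_finite ℚ L F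
  set y : Fin n → F := fun j => algebraMap L F (x j) with hy
  have hy0 : ∀ j, aeval (y j) (f j) = 0 := by
    intro j
    have h1 := Polynomial.aeval_algebraMap_apply F (x j) (f j)
    rw [hy]
    simp only
    rw [h1, hx j, map_zero]
  have hLpos : (0 : ℝ) < finrank ℚ L := by exact_mod_cast (finrank_pos : 0 < finrank ℚ L)
  have hkpos : (0 : ℝ) < finrank ℚ k := by exact_mod_cast (finrank_pos : 0 < finrank ℚ k)
  have hDpos : (0 : ℝ) < D := by rw [hD]; exact_mod_cast (finrank_pos : 0 < finrank k F)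
  have hD1 : (1 : ℝ) ≤ D := by
    rw [hD]
    exact_mod_cast (finrank_pos : 0 < finrank k F)
  have htower : (finrank L F : ℝ) / finrank ℚ k = D / finrank ℚ L := by
    have h1 : (finrank ℚ L : ℝ) * finrank L F = finrank ℚ F := by
      exact_mod_cast Module.finrank_mul_finrank ℚ L F
    have h2 : (finrank ℚ k : ℝ) * finrank k F = finrank ℚ F := by
      exact_mod_cast Module.finrank_mul_finrank ℚ k F
    rw [div_eq_div_iff hkpos.ne' hLpos.ne', hD]
    linarith
  -- the embeddings of `F` in the algebraic closures of the local fields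
  have hT' : ∀ i : ι, ∃ T' : Finset (F →+* AlgebraicClosure (P i).K),
      T'.card = (T i).card * finrank L F ∧ (i ∈ s → ∀ σ ∈ T', ∀ j, ∃ z : 𝒪[(P i).K],
        algebraMap 𝒪[(P i).K] (AlgebraicClosure (P i).K) z = σ (y j)) := by
    intro i
    have hchar : CharZero (AlgebraicClosure (P i).K) :=
      charZero_of_injective_algebraMap (algebraMap (P i).K (AlgebraicClosure (P i).K)).injective
    obtain ⟨T', h1, h2⟩ := ext_card (F := F) (T i)
      (fun τ => (algebraMap (P i).K (AlgebraicClosure (P i).K)).comp τ) (by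
        intro τ τ' h
        ext z
        have h3 := RingHom.congr_fun h z
        exact (algebraMap (P i).K (AlgebraicClosure (P i).K)).injective h3)
    refine ⟨T', h1, fun hi σ hσ j => ?_⟩
    obtain ⟨τ, hτ, h3⟩ := h2 σ hσ
    refine ⟨⟨τ (x j), hT i hi τ hτ j⟩, ?_⟩
    have h4 := RingHom.congr_fun h3 (x j)
    exact h4.symm
  choose T' hT1 hT2 using hT'
  -- the real ones
  obtain ⟨TL, hTL, hTLcard⟩ : ∃ TL : Finset (L →+* ℂ), (∀ τ ∈ TL, ComplexEmbedding.IsReal τ) ∧
      TL.card = r := by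
    have h1 : (Finset.univ.filter fun τ : L →+* ℂ => ComplexEmbedding.IsReal τ).card =
        InfinitePlace.nrRealPlaces L := by
      rw [← InfinitePlace.card_real_embeddings L, Fintype.card_subtype]
    obtain ⟨TL, h2, h3⟩ := Finset.exists_subset_card_eq (h1.symm ▸ hr)
    exact ⟨TL, fun τ hτ => (Finset.mem_filter.mp (h2 hτ)).2, h3⟩
  obtain ⟨T0, hT01, hT02⟩ := ext_card (F := F) (Ω := ℂ) TL (fun τ => τ) (fun _ _ h => h)
  have hmain := blk_two (k := k) (F := F) hn hf hy0 hgen hδ hobs s P hinj T'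
    (fun i hi => hT2 i hi) T0 (by
      intro σ hσ j
      obtain ⟨τ, hτ, h3⟩ := hT02 σ hσ
      have h1 := hTL τ hτ
      rw [ComplexEmbedding.isReal_iff] at h1
      have h2 := RingHom.congr_fun h1 (x j)
      rw [ComplexEmbedding.conjugate_coe_eq] at h2
      have h4 : σ (y j) = τ (x j) := RingHom.congr_fun h3 (x j)
      rw [h4]
      exact Complex.conj_eq_iff_re.mp h2) hD
  have hRi : ∀ i, ((T' i).card : ℝ) / finrank ℚ k = R i := by
    intro i
    rw [hT1 i, hR i]
    push_cast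
    rw [mul_div_assoc, htower]
    ring
  have hR0' : (T0.card : ℝ) / finrank ℚ k = R0 := by
    rw [hT01, hTLcard, hR0]
    push_cast
    rw [mul_div_assoc, htower]
    ring
  simp only [hRi, hR0'] at hmain
  have hn1 : (1 : ℝ) ≤ n := by exact_mod_cast hn
  have hmi : ∀ i, R i ^ (1 + 1 / (n : ℝ)) ≤ mom k n (T' i) / finrank ℚ k := by
    intro i
    have hchar : CharZero (AlgebraicClosure (P i).K) :=
      charZero_of_injective_algebraMap (algebraMap (P i).K (AlgebraicClosure (P i).K)).injective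
    rw [le_div_iff₀ hkpos, ← hRi i, mul_comm]
    exact mom_ge hn (T' i)
  have hm0 : R0 ^ (1 + 1 / (n : ℝ)) ≤ mom k n T0 / finrank ℚ k := by
    rw [le_div_iff₀ hkpos, ← hR0', mul_comm]
    exact mom_ge hn T0
  have hlogpos : 0 < Real.log (2 * D + 2) := Real.log_pos (by linarith)
  have h1 : R0 ^ (1 + 1 / (n : ℝ)) / (24 * Real.log (2 * D + 2)) ≤
      mom k n T0 / finrank ℚ k / (24 * Real.log (2 * D + 2)) :=
    div_le_div_of_nonneg_right hm0 (by positivity)
  have h2 : ∑ i ∈ s, 2 * Real.log (P i).p / ((P i).e * (P i).q) * gain n (P i).q (R i) ≤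
      ∑ i ∈ s, 2 * Real.log (P i).p / ((P i).e * (P i).q) *
        ((n : ℝ) / (n + 1) * (mom k n (T' i) / finrank ℚ k) -
          (n * (((P i).q : ℝ) - 1) + 2) * R i) := by
    refine Finset.sum_le_sum fun i _ => mul_le_mul_of_nonneg_left ?_ ?_
    · unfold gain
      have h3 := mul_le_mul_of_nonneg_left (hmi i) (by positivity : (0 : ℝ) ≤ (n : ℝ) / (n + 1))
      linarith
    · have : 0 ≤ Real.log (P i).p := Real.log_natCast_nonneg _
      positivity
  linarith

end Pool.Agent.Q188.RV
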